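import Pool.Agent.Lib.UCX.Dif

/-!
# UCU / Dfe: logarithmic perturbations of a Dirichlet series

PROOF IN WORDS. Model: `diff_analytic` in UCX/Dif.lean (copy the private lemma `norm_diff_le`). `h s = ∑' y, ((v + c + 1)^(-s) - (v + 1)^(-s))`; on the ball of radius `1/4` around `1` (`re w > 3/4`, `‖w‖ ≤ 2`) the term is at most `‖w‖ (v + 1)^(-re w - 1) c ≤ 2 c (v + 1)^(-7/4) ≤ C' (v + 1)^(-5/4)`, because `c ≤ C (1 + log2 (v + 1)) ≤ C'' (v + 1)^(1/2)` (`Nat.log 2 n ≤ ...`: `2 ^ Nat.log 2 n ≤ n` and `k ≤ 2 * 2^(k/2)`, or `Real.log_le_rpow_div`, `Nat.log` against `Real.log`), and `∑ (v + 1)^(-5/4)` converges by `hs`. `log_half` is the elementary bound.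
-/

set_option autoImplicit false

open Filter Topology Finset

namespace Pool.Agent.Lib.UCU

open Pool.Agent.Lib.UCX

private theorem sq_two_pow (k : ℕ) : (1 + k) ^ 2 ≤ 16 * 2 ^ k := by
  induction k with
  | zero => norm_num
  | succ k ih =>
    have h1 : k < 2 ^ k := Nat.lt_two_pow_self
    have h2 : (1 + (k + 1)) ^ 2 = (1 + k) ^ 2 + (2 * k + 3) := by ring
    have h3 : 16 * 2 ^ (k + 1) = 2 * (16 * 2 ^ k) := by ring
    omega

theorem log_half (n : ℕ) (hn : 1 ≤ n) : (1 + Nat.log 2 n : ℝ) ≤ 4 * (n : ℝ) ^ ((1 : ℝ) / 2) := by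
  rw [← Real.sqrt_eq_rpow]
  have h1 : 2 ^ Nat.log 2 n ≤ n := Nat.pow_log_le_self 2 (by omega)
  have h2 := sq_two_pow (Nat.log 2 n)
  have h3 : (1 + Nat.log 2 n) ^ 2 ≤ 16 * n := h2.trans (Nat.mul_le_mul_left _ h1)
  have h4 : (1 + Nat.log 2 n : ℝ) ^ 2 ≤ 16 * n := by exact_mod_cast h3
  have h5 : (1 + Nat.log 2 n : ℝ) / 4 ≤ Real.sqrt n := by
    apply Real.le_sqrt_of_sq_le
    rw [div_pow]
    linarith
  linarith

private theorem norm_diff_le {s : ℂ} (hs : -1 ≤ s.re) {m a c : ℝ} (hm : 1 ≤ m) (ha : m ≤ a) (hc : m ≤ c) :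
    ‖(a : ℂ) ^ (-s) - (c : ℂ) ^ (-s)‖ ≤ ‖s‖ * m ^ (-s.re - 1) * ‖a - c‖ := by
  have hd : ∀ t ∈ Set.Ici m, HasDerivWithinAt (fun t : ℝ => (t : ℂ) ^ (-s)) (-s * (t : ℂ) ^ (-s - 1)) (Set.Ici m) t := by
    intro t ht
    have ht0 : 0 < t := by
      have : m ≤ t := ht
      linarith
    have h1 : HasDerivAt (fun z : ℂ => z ^ (-s)) (-s * (t : ℂ) ^ (-s - 1)) (t : ℂ) := by
      have := (hasDerivAt_id (t : ℂ)).cpow_const (c := -s) (Or.inl (by simpa using ht0))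
      simpa using this
    exact h1.comp_ofReal.hasDerivWithinAt
  have hb : ∀ t ∈ Set.Ici m, ‖-s * (t : ℂ) ^ (-s - 1)‖ ≤ ‖s‖ * m ^ (-s.re - 1) := by
    intro t ht
    have ht1 : m ≤ t := ht
    have ht0 : 0 < t := by linarith
    rw [norm_mul, norm_neg, Complex.norm_cpow_eq_rpow_re_of_pos ht0]
    refine mul_le_mul_of_nonneg_left ?_ (norm_nonneg _)
    have h2 : (-s - 1).re = -s.re - 1 := by simp
    rw [h2]
    exact Real.rpow_le_rpow_of_nonpos (by linarith) ht1 (by linarith)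
  exact (convex_Ici m).norm_image_sub_le_of_norm_hasDerivWithin_le hd hb hc ha

theorem dfe {Y : Type} (v c : Y → ℕ) (C : ℕ) (hc : ∀ y, c y ≤ C * (1 + Nat.log 2 (v y + 1)))
    (hs : ∀ s : ℝ, 1 < s → Summable fun y => ((v y + 1 : ℕ) : ℝ) ^ (-s)) :
    ∃ h : ℂ → ℂ, AnalyticAt ℂ h 1 ∧ ∀ s : ℝ, 1 < s →
      ∑' y, ((v y + c y + 1 : ℕ) : ℂ) ^ (-(s : ℂ)) = ∑' y, ((v y + 1 : ℕ) : ℂ) ^ (-(s : ℂ)) + h s := by
  refine ⟨fun s => ∑' y, (((v y + c y + 1 : ℕ) : ℂ) ^ (-s) - ((v y + 1 : ℕ) : ℂ) ^ (-s)), ?_, ?_⟩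
  · have hu : Summable fun y => 8 * (C : ℝ) * ((v y + 1 : ℕ) : ℝ) ^ (-(5 / 4) : ℝ) :=
      (hs (5 / 4) (by norm_num)).mul_left _
    have hD : DifferentiableOn ℂ (fun s => ∑' y, (((v y + c y + 1 : ℕ) : ℂ) ^ (-s) - ((v y + 1 : ℕ) : ℂ) ^ (-s)))
        (Metric.ball (1 : ℂ) (1 / 4)) := by
      refine Complex.differentiableOn_tsum_of_summable_norm hu ?_ Metric.isOpen_ball ?_
      · intro y
        have e1 : ((v y + c y + 1 : ℕ) : ℂ) ≠ 0 := Nat.cast_ne_zero.2 (Nat.succ_ne_zero _)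
        have e2 : ((v y + 1 : ℕ) : ℂ) ≠ 0 := Nat.cast_ne_zero.2 (Nat.succ_ne_zero _)
        intro w _
        exact ((differentiableAt_id.neg.const_cpow (Or.inl e1)).sub
          (differentiableAt_id.neg.const_cpow (Or.inl e2))).differentiableWithinAt
      · intro y w hw
        have h1 : ‖w - 1‖ < 1 / 4 := by simpa [dist_eq_norm] using hw
        have h2 : |(w - 1).re| ≤ ‖w - 1‖ := Complex.abs_re_le_norm _
        have h3 : 3 / 4 < w.re := by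
          have := (abs_lt.1 (h2.trans_lt h1)).1
          simp at this
          linarith
        have h4 : ‖w‖ ≤ 2 := by
          have : ‖w‖ ≤ ‖w - 1‖ + ‖(1 : ℂ)‖ := by
            have := norm_add_le (w - 1) 1
            simpa using this
          rw [norm_one] at this
          linarith
        have hm : (1 : ℝ) ≤ ((v y + 1 : ℕ) : ℝ) := by exact_mod_cast Nat.succ_le_succ (Nat.zero_le _)
        have h7 := norm_diff_le (s := w) (by linarith) (m := ((v y + 1 : ℕ) : ℝ)) (a := ((v y + c y + 1 : ℕ) : ℝ))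
          (c := ((v y + 1 : ℕ) : ℝ)) hm (by exact_mod_cast (by omega : v y + 1 ≤ v y + c y + 1)) le_rfl
        rw [Complex.ofReal_natCast, Complex.ofReal_natCast] at h7
        refine h7.trans ?_
        have h8 : ‖((v y + c y + 1 : ℕ) : ℝ) - ((v y + 1 : ℕ) : ℝ)‖ = (c y : ℝ) := by
          have e : ((v y + c y + 1 : ℕ) : ℝ) - ((v y + 1 : ℕ) : ℝ) = (c y : ℝ) := by
            push_cast
            ring
          rw [e, Real.norm_eq_abs, abs_of_nonneg (Nat.cast_nonneg _)]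
        have h9 : ((v y + 1 : ℕ) : ℝ) ^ (-w.re - 1) ≤ ((v y + 1 : ℕ) : ℝ) ^ (-(7 / 4) : ℝ) :=
          Real.rpow_le_rpow_of_exponent_le hm (by linarith)
        have h10 : 0 ≤ ((v y + 1 : ℕ) : ℝ) ^ (-(7 / 4) : ℝ) := Real.rpow_nonneg (by linarith) _
        have h11 : (c y : ℝ) ≤ 4 * (C : ℝ) * ((v y + 1 : ℕ) : ℝ) ^ ((1 : ℝ) / 2) := by
          have a1 : (c y : ℝ) ≤ (C : ℝ) * (1 + Nat.log 2 (v y + 1) : ℝ) := by exact_mod_cast hc y
          have a2 := log_half (v y + 1) (by omega)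
          have a3 := mul_le_mul_of_nonneg_left a2 (Nat.cast_nonneg (α := ℝ) C)
          linarith
        have h12 : ((v y + 1 : ℕ) : ℝ) ^ (-(7 / 4) : ℝ) * ((v y + 1 : ℕ) : ℝ) ^ ((1 : ℝ) / 2) =
            ((v y + 1 : ℕ) : ℝ) ^ (-(5 / 4) : ℝ) := by
          rw [← Real.rpow_add (by linarith)]
          norm_num
        rw [h8]
        calc ‖w‖ * ((v y + 1 : ℕ) : ℝ) ^ (-w.re - 1) * (c y : ℝ)
            ≤ 2 * ((v y + 1 : ℕ) : ℝ) ^ (-(7 / 4) : ℝ) * (4 * (C : ℝ) * ((v y + 1 : ℕ) : ℝ) ^ ((1 : ℝ) / 2)) :=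
              mul_le_mul (mul_le_mul h4 h9 (Real.rpow_nonneg (by linarith) _) (by norm_num)) h11 (Nat.cast_nonneg _)
                (mul_nonneg (by norm_num) h10)
          _ = 8 * (C : ℝ) * (((v y + 1 : ℕ) : ℝ) ^ (-(7 / 4) : ℝ) * ((v y + 1 : ℕ) : ℝ) ^ ((1 : ℝ) / 2)) := by ring
          _ = 8 * (C : ℝ) * ((v y + 1 : ℕ) : ℝ) ^ (-(5 / 4) : ℝ) := by rw [h12]
    exact hD.analyticAt (Metric.isOpen_ball.mem_nhds (Metric.mem_ball_self (by norm_num)))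
  · intro s hs1
    have hm : Summable fun y => ((v y + 1 : ℕ) : ℂ) ^ (-(s : ℂ)) := by
      refine Summable.of_norm ?_
      refine (hs s hs1).congr fun y => ?_
      rw [Complex.norm_natCast_cpow_of_pos (Nat.succ_pos _)]
      simp
    have ha : Summable fun y => ((v y + c y + 1 : ℕ) : ℂ) ^ (-(s : ℂ)) := by
      refine Summable.of_norm_bounded (hs s hs1) fun y => ?_
      rw [Complex.norm_natCast_cpow_of_pos (Nat.succ_pos _)]
      have e : (-(s : ℂ)).re = -s := by simp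
      rw [e]
      refine Real.rpow_le_rpow_of_nonpos ?_ ?_ (by linarith)
      · exact_mod_cast Nat.succ_pos _
      · exact_mod_cast (by omega : v y + 1 ≤ v y + c y + 1)
    show _ = _ + ∑' y, (((v y + c y + 1 : ℕ) : ℂ) ^ (-(s : ℂ)) - ((v y + 1 : ℕ) : ℂ) ^ (-(s : ℂ)))
    rw [ha.tsum_sub hm]
    ring

end Pool.Agent.Lib.UCU
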