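import Pool.Agent.Lib.UCU.Defs

/-!
# UCU / Sub: the subsystem without the bad states

PROOF IN WORDS. `sub_path`: a path of `sub S B` gives, by `Subtype.val`, a path of `S` (induction) with the same value, slope, emission. `sub_equiv`: `l ↦ l.map Subtype.val` is injective (`List.map_injective_iff`, `Subtype.val_injective`); if `l` is accepted in `sub S B` its image is accepted in `S` and visits no state of `B`: the end of each suffix is `q0` (for the empty list) or a target of an edge of the subsystem, and if `q0 ∈ B` then there is no accepted path (a nonempty path starts with an edge whose source is `q0 ∉ B`, the empty path ends in `q0 ∉ fin \ B`). Conversely an accepted path of `S` which does not visit `B` has only edges with source and target outside `B` (the source and the target of an edge are ends of suffixes), so it is an image (induction, or `List.pmap` / `List.attachWith`).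
`sub_ref`, `sub_good`: from these. `sub_nobad`: if `q` is live in the subsystem, then `q ∉ B`: a nonempty path from `q` has a first edge with source `q`, the empty one ends in `q ∈ fin \ B`. If `w` is a slow cycle at `q` in the subsystem with emission, its image is one in `S`, and `q` is live and reached in `S`, so `q ∈ B = {q | Bad S em q}`, a contradiction.
-/

set_option autoImplicit false

namespace Pool.Agent.Lib.UCU

open Pool.Agent.Lib.UCX
open Pool.Agent.Lib.UCV

theorem sub_path (S : Sys) (B : Set S.Q) {q q' : S.Q} {l : List (sub S B).E} (h : Path (sub S B) q l q') :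
    Path S q (l.map Subtype.val) q' := by
  induction h with
  | nil => exact Path.nil _
  | cons e _ ih => exact Path.cons (S := S) e.1 ih

theorem sub_tot (S : Sys) (em : S.E → ℕ) (B : Set S.Q) (l : List (sub S B).E) :
    val (sub S B) l = val S (l.map Subtype.val) ∧
      cst (sub S B) (fun e => em e.1) l = cst S em (l.map Subtype.val) := by
  constructor
  · induction l with
    | nil => rfl
    | cons e l ih =>
      show (sub S B).b e * val (sub S B) l + (sub S B).d e = S.b e.1 * val S (l.map Subtype.val) + S.d e.1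
      rw [ih]
      rfl
  · unfold cst
    rw [List.map_map]
    rfl

private theorem sb_src (S : Sys) (B : Set S.Q) {q q' : S.Q} {l : List (sub S B).E}
    (h : Path (sub S B) q l q') (hq : q' ∉ B) : q ∉ B := by
  induction h with
  | nil => exact hq
  | cons e _ ih => exact ih e.2.1

private theorem sb_inj (S : Sys) (B : Set S.Q) {l l' : List (sub S B).E}
    (h : l.map Subtype.val = l'.map Subtype.val) : l = l' :=
  List.map_injective_iff.2 Subtype.val_injective h

private theorem sb_vis (S : Sys) (B : Set S.Q) (h0 : S.q0 ∉ B) (l : List (sub S B).E) :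
    ¬ Vis S B (l.map Subtype.val) := by
  rintro ⟨l2, l1, q, he, hq, hp⟩
  obtain ⟨m2, m1, -, -, rfl⟩ := List.map_eq_append_iff.1 he
  cases m1 with
  | nil =>
    cases hp
    exact h0 hq
  | cons e m1 =>
    cases hp
    exact e.2.2 hq

private theorem sb_acc (S : Sys) (B : Set S.Q) {l : List (sub S B).E} (h : l ∈ Acc (sub S B)) :
    l.map Subtype.val ∈ Acc S ∧ ¬ Vis S B (l.map Subtype.val) := by
  obtain ⟨q, hq, hl⟩ := h
  exact ⟨⟨q, hq.1, sub_path S B hl⟩, sb_vis S B (sb_src S B hl hq.2) l⟩

private theorem sb_lift (S : Sys) (B : Set S.Q) {q q' : S.Q} {l : List S.E} (h : Path S q l q')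
    (hv : ∀ l2 l1 p, l = l2 ++ l1 → Path S q l1 p → p ∉ B) :
    ∃ l' : List (sub S B).E, l'.map Subtype.val = l ∧ Path (sub S B) q l' q' := by
  induction h with
  | nil => exact ⟨[], rfl, Path.nil (S := sub S B) _⟩
  | @cons w e hw ih =>
    obtain ⟨w', hw', hp⟩ := ih (fun l2 l1 p he hp => hv (e :: l2) l1 p (by rw [he]; rfl) hp)
    have h1 : S.src e ∉ B := hv [e] w _ rfl hw
    have h2 : S.tgt e ∉ B := hv [] (e :: w) _ rfl (Path.cons e hw)
    exact ⟨(⟨e, h1, h2⟩ : (sub S B).E) :: w', congrArg (List.cons e) hw',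
      Path.cons (S := sub S B) ⟨e, h1, h2⟩ hp⟩

theorem sub_bij (S : Sys) (B : Set S.Q) :
    ∃ f : Acc (sub S B) → {l : List S.E // l ∈ Acc S ∧ ¬ Vis S B l}, Function.Bijective f ∧
      ∀ l, ((f l : {l : List S.E // l ∈ Acc S ∧ ¬ Vis S B l}) : List S.E) = (l : List (sub S B).E).map Subtype.val := by
  refine ⟨fun l => ⟨(l : List (sub S B).E).map Subtype.val, sb_acc S B l.2⟩, ⟨?_, ?_⟩, fun l => rfl⟩
  · intro l l' h
    exact Subtype.ext (sb_inj S B (congrArg Subtype.val h))
  · rintro ⟨l, ⟨q, hq, hl⟩, hv⟩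
    have hv' : ∀ l2 l1 p, l = l2 ++ l1 → Path S S.q0 l1 p → p ∉ B :=
      fun l2 l1 p he hp hB => hv ⟨l2, l1, p, he, hB, hp⟩
    obtain ⟨l', hl', hp⟩ := sb_lift S B hl hv'
    refine ⟨⟨l', q, ⟨hq, hv' [] l q rfl hl⟩, hp⟩, ?_⟩
    exact Subtype.ext hl'

theorem sub_ref (S : Sys) (B Z : Set S.Q) (h : Ref S Z) : Ref (sub S B) Z := by
  refine ⟨fun e => h.b1 e.1, fun e he => h.bz e.1 he, fun q hq l hl => ?_⟩
  rw [(sub_tot S (fun _ => 0) B l).1]
  exact h.pos q hq _ (sub_path S B hl)

private theorem sb_tot (S : Sys) (em : S.E → ℕ) (B : Set S.Q) (l : List (sub S B).E) :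
    tot (sub S B) (fun e => em e.1) l = tot S em (l.map Subtype.val) := by
  unfold tot
  rw [(sub_tot S em B l).1, (sub_tot S em B l).2]

theorem sub_good (S : Sys) (em : S.E → ℕ) (B : Set S.Q) (h : Good S em) : Good (sub S B) (fun e => em e.1) := by
  constructor
  · intro s hs
    have hg : Function.Injective (fun l : Acc (sub S B) =>
        (⟨(l : List (sub S B).E).map Subtype.val, (sb_acc S B l.2).1⟩ : Acc S)) := by
      intro l l' hl
      exact Subtype.ext (sb_inj S B (congrArg Subtype.val hl))
    refine ((h.summ s hs).comp_injective hg).congr fun l => ?_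
    show ((tot S em ((l : List (sub S B).E).map Subtype.val) + 1 : ℕ) : ℝ) ^ (-s) = _
    rw [sb_tot]
  · intro a κ hκ
    obtain ⟨j, hj⟩ := h.ap a κ hκ
    refine ⟨j, fun l hl l' hl' h1 h2 => sb_inj S B ?_⟩
    rw [sb_tot] at h1 h2
    exact hj _ (sb_acc S B hl).1 _ (sb_acc S B hl').1 h1 h2

theorem sub_nobad (S : Sys) (em : S.E → ℕ) : NoBad (sub S {q | Bad S em q}) (fun e => em e.1) := by
  rintro q ⟨q', hq', v, hv⟩ ⟨x, hx⟩ w ⟨hw0, hw, hw1⟩
  by_contra hne
  refine sb_src S _ hv hq'.2 ⟨⟨q', hq'.1, _, sub_path S _ hv⟩, ⟨_, sub_path S _ hx⟩,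
    w.map Subtype.val, ⟨?_, sub_path S _ hw, ?_⟩, ?_⟩
  · intro e
    exact hw0 (List.map_eq_nil_iff.1 e)
  · intro e he
    obtain ⟨e', he', rfl⟩ := List.mem_map.1 he
    exact hw1 e' he'
  · rw [← (sub_tot S em _ w).2]
    exact Nat.one_le_iff_ne_zero.2 hne

end Pool.Agent.Lib.UCU
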