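import Pool.Agent.Lib.UCU.Defs

/-!
# UCU / Lng: long paths contain cycles

PROOF IN WORDS. `long_cyc`: the `y.length + 1 > |Q|` states reached by the suffixes `y.drop k`, `k = 0, …, y.length` (each suffix is a path from `p` to some state: `path_split`), two of them agree (pigeonhole, `Finite.exists_ne_map_eq_of_infinite` is not needed: `Finset.exists_ne_map_eq_of_card_lt_of_maps_to` with `Fin (y.length + 1) → S.Q`); or induction on `y` with a set of visited states. With `k < k'`: `y1 = y.drop k'`, `z` = the part between, `y2 = y.take k`. `inf_long`: `List.finite_length_lt`.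
-/

set_option autoImplicit false

namespace Pool.Agent.Lib.UCU

open Pool.Agent.Lib.UCX
open Pool.Agent.Lib.UCV

private theorem lng_det {S : Sys} {p s s' : S.Q} {w : List S.E} (h : Path S p w s) (h' : Path S p w s') : s = s' := by
  cases h with
  | nil =>
    cases h'
    rfl
  | cons e _ =>
    cases h'
    rfl

private theorem lng_aux {S : Sys} {p q : S.Q} {y : List S.E} {k k' : ℕ} (hk : k < k') (hk' : k' ≤ y.length) {r : S.Q}
    (h1 : Path S p (y.drop k) r) (h2 : Path S r (y.take k) q) (h3 : Path S p (y.drop k') r) :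
    ∃ y2 z y1 r, y = y2 ++ (z ++ y1) ∧ z ≠ [] ∧ Path S p y1 r ∧ Path S r z r ∧ Path S r y2 q := by
  have e1 : y.drop k = (y.drop k).take (k' - k) ++ y.drop k' := by
    have e2 : y.drop k' = (y.drop k).drop (k' - k) := by
      rw [List.drop_drop]
      congr 1
      omega
    rw [e2, List.take_append_drop]
  have h1' := h1
  rw [e1] at h1'
  obtain ⟨s, h4, h5⟩ := path_split _ _ h1'
  have e3 : s = r := lng_det h4 h3
  rw [e3] at h5
  refine ⟨y.take k, (y.drop k).take (k' - k), y.drop k', r, ?_, ?_, h3, h5, h2⟩
  · rw [← e1, List.take_append_drop]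
  · intro e4
    have e5 := congrArg List.length e4
    rw [List.length_take, List.length_drop, List.length_nil] at e5
    omega

theorem long_cyc (S : Sys) {p q : S.Q} {y : List S.E} (h : Path S p y q) (hl : Nat.card S.Q ≤ y.length) :
    ∃ y2 z y1 r, y = y2 ++ (z ++ y1) ∧ z ≠ [] ∧ Path S p y1 r ∧ Path S r z r ∧ Path S r y2 q := by
  have := S.finQ
  letI := Fintype.ofFinite S.Q
  have hr : ∀ k : Fin (y.length + 1), ∃ r, Path S p (y.drop k.1) r ∧ Path S r (y.take k.1) q := by
    intro k
    have h1 := h
    rw [← List.take_append_drop k.1 y] at h1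
    exact path_split _ _ h1
  choose r hr1 hr2 using hr
  obtain ⟨k, k', hne, he⟩ := Fintype.exists_ne_map_eq_of_card_lt r (by
    rw [Fintype.card_fin, ← Nat.card_eq_fintype_card]
    omega)
  rcases lt_or_gt_of_ne hne with hlt | hlt
  · have h3 := hr1 k'
    rw [← he] at h3
    exact lng_aux (Fin.lt_def.1 hlt) (by omega) (hr1 k) (hr2 k) h3
  · have h3 := hr1 k
    rw [he] at h3
    exact lng_aux (Fin.lt_def.1 hlt) (by omega) (hr1 k') (hr2 k') h3

theorem inf_long (S : Sys) {A : Set (List S.E)} (hA : A.Infinite) (n : ℕ) : ∃ l ∈ A, n ≤ l.length := by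
  by_contra hcon
  push Not at hcon
  have := S.finE
  exact hA ((List.finite_length_lt S.E n).subset hcon)

end Pool.Agent.Lib.UCU
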