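import Pool.Agent.Lib.UCU.Alg
import Pool.Agent.Lib.UCU.Lng

/-!
# UCU / Emb: the emission is at most logarithmic

PROOF IN WORDS. Let `m` be a bound for the `em e` (finitely many edges), `n = |Q|`. (1) A path `w` from a reached state `p` (`X S p` nonempty) to a live state, all of whose edges have `b = 1`, has `cst w ≤ n m`: strong induction on the length; if `w.length < n` clear (each edge emits at most `m`); otherwise `long_cyc`: `w = y2 ++ (z ++ y1)`, `z` a cycle at `r`, all edges slow, `r` is live and reached, so `cst z = 0` (`NoBad`), and `y2 ++ y1` is a shorter path with the same emission. (2) Strong induction on the length of `l ∈ X q`, `q` live: with `k l` = the number of edges of `l` with `b ≥ 2`: `cst l ≤ (k l + 1) (n + 1) m` and `2 ^ k l ≤ val l + 1`, and if `k l ≥ 1` then `2 ^ k l ≤ val l`: if no edge has `b ≥ 2` then (1); otherwise `l = w ++ (e :: l')` with `w` slow, `b e ≥ 2` (the first such edge of the list), the source of `e` is not in `Z` (`Ref.bz`), so `val l' ≥ 1` (`Ref.pos`) and `val (e :: l') ≥ 2 val l'`, `val l ≥ val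 (e :: l')` (slopes at least one), `k l = k l' + 1`, `2 ^ k l' ≤ val l'` (if `k l' = 0` because `val l' ≥ 1`). (3) `k l ≤ Nat.log 2 (val l + 1)` (`Nat.le_log_of_pow_le` or similar); `C = (n + 1) m`.
-/

set_option autoImplicit false

namespace Pool.Agent.Lib.UCU

open Pool.Agent.Lib.UCX
open Pool.Agent.Lib.UCV

private theorem cst_le (S : Sys) (em : S.E → ℕ) (m : ℕ) (hm : ∀ e, em e ≤ m) (w : List S.E) :
    cst S em w ≤ w.length * m := by
  induction w with
  | nil => simp [cst]
  | cons e w ih =>
    have h : cst S em (e :: w) = em e + cst S em w := by simp [cst]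
    rw [h, List.length_cons, add_mul, one_mul]
    have := hm e
    omega

private theorem bm_slow (S : Sys) (w : List S.E) (h : ∀ e ∈ w, S.b e = 1) : bm S w = 1 := by
  induction w with
  | nil => rfl
  | cons e w ih =>
    show S.b e * bm S w = 1
    rw [h e List.mem_cons_self, ih fun x hx => h x (List.mem_cons_of_mem _ hx)]

private theorem slow_bound (S : Sys) (em : S.E → ℕ) (hN : NoBad S em) (m : ℕ) (hm : ∀ e, em e ≤ m) (L : ℕ) :
    ∀ (w : List S.E), w.length ≤ L → ∀ p q, (X S p).Nonempty → Live S q → Path S p w q →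
      (∀ e ∈ w, S.b e = 1) → cst S em w ≤ Nat.card S.Q * m := by
  induction L with
  | zero =>
    intro w hw p q _ _ _ _
    have : w = [] := List.length_eq_zero_iff.1 (Nat.le_zero.1 hw)
    subst this
    simp [cst]
  | succ L ih =>
    intro w hw p q hp hq hpath hs
    by_cases hl : Nat.card S.Q ≤ w.length
    · obtain ⟨y2, z, y1, r, rfl, hz, h1, h2, h3⟩ := long_cyc S hpath hl
      have hr1 : (X S r).Nonempty := by
        obtain ⟨x, hx⟩ := hp
        exact ⟨y1 ++ x, path_append hx h1⟩
      have hr2 : Live S r := by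
        obtain ⟨q', hq', v, hv⟩ := hq
        exact ⟨q', hq', v ++ y2, path_append h3 hv⟩
      have hc : cst S em z = 0 := hN r hr2 hr1 z ⟨hz, h2, fun e he => hs e (by simp [he])⟩
      have hlen : (y2 ++ y1).length ≤ L := by
        have : 1 ≤ z.length := List.length_pos_iff.2 hz
        simp only [List.length_append] at hw ⊢
        omega
      have h := ih (y2 ++ y1) hlen p q hp hq (path_append h1 h3) (fun e he => hs e (by
        rcases List.mem_append.1 he with h | h <;> simp [h]))
      rw [cst_append, cst_append, hc, zero_add, ← cst_append]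
      exact h
    · have h := cst_le S em m hm w
      have h' : w.length * m ≤ Nat.card S.Q * m := Nat.mul_le_mul_right _ (by omega)
      exact h.trans h'

private theorem fast_split (S : Sys) (hb : ∀ e, 1 ≤ S.b e) (l : List S.E) :
    (∀ e ∈ l, S.b e = 1) ∨ ∃ w e l', l = w ++ e :: l' ∧ (∀ e ∈ w, S.b e = 1) ∧ 2 ≤ S.b e := by
  induction l with
  | nil => left; simp
  | cons a l ih =>
    by_cases ha : S.b a = 1
    · rcases ih with h | ⟨w, e, l', rfl, hw, he⟩
      · left
        intro e he
        rcases List.mem_cons.1 he with rfl | he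
        · exact ha
        · exact h e he
      · right
        refine ⟨a :: w, e, l', rfl, ?_, he⟩
        intro x hx
        rcases List.mem_cons.1 hx with rfl | hx
        · exact ha
        · exact hw x hx
    · right
      have := hb a
      exact ⟨[], a, l, rfl, by simp, by omega⟩

private theorem emb_main (S : Sys) (em : S.E → ℕ) {Z : Set S.Q} (hR : Ref S Z) (hN : NoBad S em) (m : ℕ)
    (hm : ∀ e, em e ≤ m) (L : ℕ) : ∀ l : List S.E, l.length ≤ L → ∀ q, Live S q → l ∈ X S q →
      ∃ k, cst S em l ≤ (k + 1) * ((Nat.card S.Q + 1) * m) ∧ 2 ^ k ≤ val S l + 1 ∧ (1 ≤ k → 2 ^ k ≤ val S l) := by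
  induction L with
  | zero =>
    intro l hl q _ _
    have : l = [] := List.length_eq_zero_iff.1 (Nat.le_zero.1 hl)
    subst this
    exact ⟨0, by simp [cst], by simp, by simp⟩
  | succ L ih =>
    intro l hl q hq hlq
    have h0 : (X S S.q0).Nonempty := ⟨[], Path.nil _⟩
    rcases fast_split S hR.b1 l with h | ⟨w, e, l', rfl, hw, he⟩
    · refine ⟨0, ?_, by simp, by simp⟩
      have h1 := slow_bound S em hN m hm l.length l le_rfl S.q0 q h0 hq hlq h
      have h2 : Nat.card S.Q * m ≤ (Nat.card S.Q + 1) * m := Nat.mul_le_mul_right _ (Nat.le_succ _)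
      simpa using h1.trans h2
    · obtain ⟨r, h1, h2⟩ := path_split w (e :: l') hlq
      cases h1 with
      | cons _ h1' =>
        have hr : (X S (S.tgt e)).Nonempty := ⟨e :: l', Path.cons e h1'⟩
        have hsrc : Live S (S.src e) := by
          obtain ⟨q', hq', v, hv⟩ := hq
          exact ⟨q', hq', v ++ (w ++ [e]), path_append (path_append (Path.cons e (Path.nil _)) h2) hv⟩
        have hZ : S.src e ∉ Z := fun hz => by
          have := hR.bz e hz
          omega
        have hv1 : 1 ≤ val S l' := hR.pos _ hZ l' h1'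
        have hlen : l'.length ≤ L := by
          simp only [List.length_append, List.length_cons] at hl
          omega
        obtain ⟨k, hk1, hk2, hk3⟩ := ih l' hlen _ hsrc h1'
        have hk4 : 2 ^ k ≤ val S l' := by
          rcases Nat.eq_zero_or_pos k with h | h
          · rw [h, pow_zero]; exact hv1
          · exact hk3 h
        have hval : val S (w ++ e :: l') = S.b e * val S l' + S.d e + val S w := by
          rw [val_append, bm_slow S w hw, one_mul]
          rfl
        have hge : 2 ^ (k + 1) ≤ val S (w ++ e :: l') := by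
          rw [hval, pow_succ]
          have : 2 * val S l' ≤ S.b e * val S l' := Nat.mul_le_mul_right _ he
          omega
        refine ⟨k + 1, ?_, hge.trans (Nat.le_succ _), fun _ => hge⟩
        have hc : cst S em (w ++ e :: l') = cst S em w + (em e + cst S em l') := by
          rw [cst_append]
          simp [cst]
        have hw' := slow_bound S em hN m hm w.length w le_rfl (S.tgt e) q hr hq h2 hw
        have he' := hm e
        rw [hc]
        have e1 : (k + 1 + 1) * ((Nat.card S.Q + 1) * m) =
            Nat.card S.Q * m + (m + (k + 1) * ((Nat.card S.Q + 1) * m)) := by ring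
        rw [e1]
        omega

theorem em_bound (S : Sys) (em : S.E → ℕ) {Z : Set S.Q} (hR : Ref S Z) (hN : NoBad S em) :
    ∃ C : ℕ, ∀ q, Live S q → ∀ l ∈ X S q, cst S em l ≤ C * (1 + Nat.log 2 (val S l + 1)) := by
  have := S.finE
  obtain ⟨m, hm⟩ : ∃ m, ∀ e, em e ≤ m := by
    obtain ⟨m, hm⟩ := (Set.finite_range em).bddAbove
    exact ⟨m, fun e => hm ⟨e, rfl⟩⟩
  refine ⟨(Nat.card S.Q + 1) * m, fun q hq l hl => ?_⟩
  obtain ⟨k, h1, h2, _⟩ := emb_main S em hR hN m hm l.length l le_rfl q hq hl
  have h3 : k ≤ Nat.log 2 (val S l + 1) := Nat.le_log_of_pow_le (by norm_num) h2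
  calc cst S em l ≤ (k + 1) * ((Nat.card S.Q + 1) * m) := h1
    _ = (Nat.card S.Q + 1) * m * (1 + k) := by ring
    _ ≤ (Nat.card S.Q + 1) * m * (1 + Nat.log 2 (val S l + 1)) :=
      Nat.mul_le_mul_left _ (by omega)

end Pool.Agent.Lib.UCU
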