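import Pool.Agent.Lib.UCX.ApB

/-!
# UCU / Srs: series of finitely many arithmetic progressions

PROOF IN WORDS. `ap_series`: `dirN_shift` for the set `T = {a + κ j}` and `DirN T s = ∑' j` (`tsum_range` or `tsum_image` of the injective map `j ↦ a + κ j`). `rays_series`: the sum over `Y` is the sum over `I × ℕ` (`Equiv.tsum_eq`), for `s > 1` summable, so `= ∑ i, ∑' j` (`Summable.tsum_prod`, `tsum_fintype`; `Summable` of the complex terms from the real ones by `Complex.norm_natCast_cpow_of_pos`), then `ap_series` for each `i` and a finite sum of analytic functions (`Finset.analyticAt_fun_sum`).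
-/

set_option autoImplicit false

open Filter Topology Finset

namespace Pool.Agent.Lib.UCU

open Pool.Agent.Lib.UCX

theorem ap_series (a κ : ℕ) (hκ : 1 ≤ κ) : ∃ H : ℂ → ℂ, AnalyticAt ℂ H 1 ∧ ∀ s : ℝ, 1 < s →
    ((s : ℂ) - 1) * ∑' j : ℕ, ((a + κ * j + 1 : ℕ) : ℂ) ^ (-(s : ℂ)) = H s := by
  have hinj : Function.Injective fun j : ℕ => a + κ * j := by
    intro i j h
    have h1 : κ * i = κ * j := Nat.add_left_cancel h
    exact Nat.eq_of_mul_eq_mul_left hκ h1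
  obtain ⟨H, hH, hH'⟩ := dirN_shift (Set.range fun j : ℕ => a + κ * j) κ hκ (by
    rintro n ⟨j, rfl⟩
    refine ⟨j + 1, ?_⟩
    change a + κ * (j + 1) = a + κ * j + κ
    ring)
  refine ⟨H, hH, fun s hs => ?_⟩
  rw [← hH' s hs]
  congr 1
  unfold DirN
  exact (tsum_range (fun n : ℕ => ((n + 1 : ℕ) : ℂ) ^ (-(s : ℂ))) hinj).symm

theorem rays_series {Y I : Type} [Finite I] (v : Y → ℕ) (a κ : I → ℕ) (hκ : ∀ i, 1 ≤ κ i)
    (hs : ∀ s : ℝ, 1 < s → Summable fun y => ((v y + 1 : ℕ) : ℝ) ^ (-s))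
    (f : I × ℕ → Y) (hf : Function.Bijective f) (hv : ∀ i j, v (f (i, j)) = a i + κ i * j) :
    ∃ H : ℂ → ℂ, AnalyticAt ℂ H 1 ∧ ∀ s : ℝ, 1 < s →
      ((s : ℂ) - 1) * ∑' y, ((v y + 1 : ℕ) : ℂ) ^ (-(s : ℂ)) = H s := by
  classical
  have := Fintype.ofFinite I
  choose H hH hH' using fun i : I => ap_series (a i) (κ i) (hκ i)
  refine ⟨fun s => ∑ i : I, H i s, Finset.analyticAt_fun_sum _ fun i _ => hH i, ?_⟩
  intro s hs1
  have hY : Summable fun y => ((v y + 1 : ℕ) : ℂ) ^ (-(s : ℂ)) := by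
    refine Summable.of_norm ?_
    refine (hs s hs1).congr fun y => ?_
    rw [Complex.norm_natCast_cpow_of_pos (Nat.succ_pos _)]
    simp
  have hP : Summable fun p : I × ℕ => ((v (f p) + 1 : ℕ) : ℂ) ^ (-(s : ℂ)) :=
    (Equiv.ofBijective f hf).summable_iff.2 hY
  have h4 : ∑' y, ((v y + 1 : ℕ) : ℂ) ^ (-(s : ℂ)) = ∑' p : I × ℕ, ((v (f p) + 1 : ℕ) : ℂ) ^ (-(s : ℂ)) :=
    ((Equiv.ofBijective f hf).tsum_eq (fun y => ((v y + 1 : ℕ) : ℂ) ^ (-(s : ℂ)))).symm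
  rw [h4, hP.tsum_prod, tsum_fintype, Finset.mul_sum]
  refine Finset.sum_congr rfl fun i _ => ?_
  rw [← hH' i s hs1]
  congr 1
  refine tsum_congr fun j => ?_
  rw [hv i j]

end Pool.Agent.Lib.UCU
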