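import Pool.Agent.Lib.UCU.RayA
import Pool.Agent.Lib.UCU.Srs
import Pool.Agent.Lib.UCU.Emb

/-!
# UCU / Tme: systems without bad states are tame

PROOF IN WORDS. `acc_summ`: for `x ∈ X q`, `q` live with continuation `y`: `(val x + 1)^(-s) ≤ D^s (tot (y ++ x) + 1)^(-s)` because `tot (y ++ x) + 1 = bm y * val x + val y + cst y + cst x + 1 ≤ D (val x + 1)`, where `cst x ≤ C (1 + log2 (val x + 1)) ≤ C (val x + 2)` (`em_bound`, `Nat.log_le_self` or `Nat.log_lt_self`), and `x ↦ y ++ x` is injective into `Acc S` (model: the first part of `tame_of` in UCV/TameOf). `edge` is `Ref.b1`. `cyc`: `Cyc S q` gives a slow cycle `w`; `cst w = 0` (`NoBad`), so `val w ≥ 1` (`ray_pos` gives `bm y * val w + 0 ≥ 1`). `F` = the set of `ray_fin`, finite. `((x0 : F), j) ↦ rep w j ++ x0` is a bijection from `F × ℕ` onto `X S q` (`strip_l`, `strip_l_uniq`; the rest `x0` is in `X S q`: as in BadS, if `x = rep w j ++ x0 ∈ X q` then `x0 ∈ X q`, because the path `rep w j` (nonempty unless `j = 0`) starts at `q`),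 the value is `val x0 + val w * j` (`val_ray`), so `rays_series` applies (`Dir` unfolds to the sum).
-/

set_option autoImplicit false

open Filter Topology Finset

namespace Pool.Agent.Lib.UCU

open Pool.Agent.Lib.UCX
open Pool.Agent.Lib.UCV

/-- the start of a nonempty path is determined by its edges -/
private theorem path_start (S : Sys) : ∀ (l : List S.E), l ≠ [] → ∀ {r r' q q' : S.Q},
    Path S r l q → Path S r' l q' → r = r'
  | [], h, _, _, _, _, _, _ => absurd rfl h
  | e :: l, _, r, r', q, q', h1, h2 => by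
    cases h1 with
    | cons _ h1 =>
      cases h2 with
      | cons _ h2 =>
        by_cases hl : l = []
        · subst hl
          cases h1
          cases h2
          rfl
        · exact path_start S l hl h1 h2

private theorem acc_summ (S : Sys) (em : S.E → ℕ) {Z : Set S.Q} (hR : Ref S Z) (hG : Good S em) (hN : NoBad S em)
    (q : S.Q) (hq : Live S q) (s : ℝ) (hs : 1 < s) :
    Summable fun l : X S q => ((val S (l : List S.E) + 1 : ℕ) : ℝ) ^ (-s) := by
  obtain ⟨C, hC⟩ := em_bound S em hR hN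
  obtain ⟨q', hq', y, hy⟩ := id hq
  have hacc : ∀ x : X S q, y ++ (x : List S.E) ∈ Acc S := fun x => ⟨q', hq', path_append x.2 hy⟩
  have h3 := (hG.summ s hs).comp_injective (i := fun x : X S q => (⟨y ++ (x : List S.E), hacc x⟩ : Acc S))
    (fun a b hab => Subtype.ext (List.append_cancel_left (congrArg Subtype.val hab)))
  have h4 := h3.mul_left (((bm S y + val S y + cst S em y + 2 * C + 1 : ℕ) : ℝ) ^ s)
  refine Summable.of_nonneg_of_le (fun x => Real.rpow_nonneg (Nat.cast_nonneg _) _) (fun x => ?_) h4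
  show _ ≤ ((bm S y + val S y + cst S em y + 2 * C + 1 : ℕ) : ℝ) ^ s *
    ((tot S em (y ++ (x : List S.E)) + 1 : ℕ) : ℝ) ^ (-s)
  have hA : (0 : ℝ) < ((bm S y + val S y + cst S em y + 2 * C + 1 : ℕ) : ℝ) := by exact_mod_cast Nat.succ_pos _
  have hB : (0 : ℝ) < ((val S (x : List S.E) + 1 : ℕ) : ℝ) := by exact_mod_cast Nat.succ_pos _
  have hD : (0 : ℝ) < ((tot S em (y ++ (x : List S.E)) + 1 : ℕ) : ℝ) := by exact_mod_cast Nat.succ_pos _
  have h5 : ((tot S em (y ++ (x : List S.E)) + 1 : ℕ) : ℝ) ≤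
      ((bm S y + val S y + cst S em y + 2 * C + 1 : ℕ) : ℝ) * ((val S (x : List S.E) + 1 : ℕ) : ℝ) := by
    rw [← Nat.cast_mul]
    refine Nat.cast_le.2 ?_
    unfold tot
    rw [val_append, cst_append]
    have e1 := hC q hq x x.2
    have e2 := Nat.log_le_self 2 (val S (x : List S.E) + 1)
    have e3 : C * (1 + Nat.log 2 (val S (x : List S.E) + 1)) ≤ C * (1 + (val S (x : List S.E) + 1)) :=
      Nat.mul_le_mul_left _ (by omega)
    have e4 : C * (1 + (val S (x : List S.E) + 1)) ≤ 2 * C * (val S (x : List S.E) + 1) := by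
      nlinarith [Nat.zero_le (C * val S (x : List S.E))]
    have e5 : cst S em (x : List S.E) ≤ 2 * C * (val S (x : List S.E) + 1) := by omega
    calc bm S y * val S (x : List S.E) + val S y + (cst S em y + cst S em (x : List S.E)) + 1
        ≤ bm S y * val S (x : List S.E) + val S y + (cst S em y + 2 * C * (val S (x : List S.E) + 1)) + 1 := by
          omega
      _ ≤ (bm S y + val S y + cst S em y + 2 * C + 1) * (val S (x : List S.E) + 1) := by
          nlinarith [Nat.zero_le (bm S y), Nat.zero_le (val S y * val S (x : List S.E)),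
            Nat.zero_le (cst S em y * val S (x : List S.E)), Nat.zero_le (val S (x : List S.E))]
  have h6 := Real.rpow_le_rpow_of_nonpos hD h5 (by linarith : -s ≤ 0)
  rw [Real.mul_rpow hA.le hB.le] at h6
  calc ((val S (x : List S.E) + 1 : ℕ) : ℝ) ^ (-s)
      = ((bm S y + val S y + cst S em y + 2 * C + 1 : ℕ) : ℝ) ^ s *
          (((bm S y + val S y + cst S em y + 2 * C + 1 : ℕ) : ℝ) ^ (-s) *
          ((val S (x : List S.E) + 1 : ℕ) : ℝ) ^ (-s)) := by
        rw [← mul_assoc, ← Real.rpow_add hA, add_neg_cancel, Real.rpow_zero, one_mul]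
    _ ≤ _ := mul_le_mul_of_nonneg_left h6 (Real.rpow_nonneg hA.le _)

theorem tme (S : Sys) (em : S.E → ℕ) {Z : Set S.Q} (hR : Ref S Z) (hG : Good S em) (hN : NoBad S em) : Tame S := by
  refine ⟨fun q hq _ s hs => acc_summ S em hR hG hN q hq s hs, fun e _ _ => hR.b1 e, ?_⟩
  rintro q hq hi ⟨w, hw, hp, hb⟩
  obtain ⟨q', hq', y, hy⟩ := id hq
  obtain ⟨x, hx⟩ := hi.nonempty
  have hslow : Slow S q w := ⟨hw, hp, hb⟩
  have hc : cst S em w = 0 := hN q hq ⟨x, hx⟩ w hslow
  have hv1 : 1 ≤ val S w := by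
    have h := ray_pos S em hG hslow hx ⟨q', hq', hy⟩
    rw [hc, add_zero] at h
    rcases Nat.eq_zero_or_pos (val S w) with h0 | h0
    · rw [h0, mul_zero] at h
      omega
    · exact h0
  have hF := ray_fin S em hG hslow hq
  have hFin : Finite {x | x ∈ X S q ∧ ¬ ∃ x', x = w ++ x'} := hF.to_subtype
  let f : {x | x ∈ X S q ∧ ¬ ∃ x', x = w ++ x'} × ℕ → X S q := fun z =>
    ⟨rep w z.2 ++ (z.1 : List S.E), path_append z.1.2.1 (rep_path S hp z.2)⟩
  have hf : Function.Bijective f := by
    constructor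
    · rintro ⟨⟨a, ha1, ha2⟩, i⟩ ⟨⟨b, hb1, hb2⟩, j⟩ hab
      have h := congrArg Subtype.val hab
      obtain ⟨h1, h2⟩ := strip_l_uniq w ha2 hb2 h
      subst h1
      subst h2
      rfl
    · rintro ⟨a, ha⟩
      obtain ⟨j, x0, h1, h2⟩ := strip_l w hw a
      have ha' : Path S S.q0 (rep w j ++ x0) q := h1 ▸ ha
      obtain ⟨r, hr1, hr2⟩ := path_split (rep w j) x0 ha'
      have hrq : r = q := by
        by_cases hj : rep w j = []
        · rw [hj] at hr2
          cases hr2
          rfl
        · exact path_start S (rep w j) hj hr2 (rep_path S hp j)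
      subst hrq
      exact ⟨⟨⟨x0, hr1, h2⟩, j⟩, Subtype.ext h1.symm⟩
  exact rays_series (Y := X S q) (I := ↥{x | x ∈ X S q ∧ ¬ ∃ x', x = w ++ x'})
    (fun l => val S (l : List S.E)) (fun i => val S (i : List S.E)) (fun _ => val S w)
    (fun _ => hv1) (fun s hs => acc_summ S em hR hG hN q hq s hs) f hf (fun i j => by
      show val S (rep w j ++ (i : List S.E)) = _
      rw [val_ray S hb, mul_comm])

end Pool.Agent.Lib.UCU
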