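import Pool.Agent.Lib.UCV.SysQ

/-!
# UCU: systems with emission, definitions

A path `l` (list of edges, the last edge first) of a system has the value `val S l` and the emission `cst S em l` (sum of the
`em e`), together `tot S em l`. `Slow S q w`: `w` is a cycle at `q` whose edges have `b = 1`.
-/

set_option autoImplicit false

namespace Pool.Agent.Lib.UCU

open Pool.Agent.Lib.UCX
open Pool.Agent.Lib.UCV

/-- the emission of a path -/
def cst (S : Sys) (em : S.E → ℕ) (l : List S.E) : ℕ := (l.map em).sum

/-- the total value of a path -/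
def tot (S : Sys) (em : S.E → ℕ) (l : List S.E) : ℕ := val S l + cst S em l

/-- all slopes are at least one, and equal to one from the states in `Z`; the values at the other states are positive -/
structure Ref (S : Sys) (Z : Set S.Q) : Prop where
  b1 : ∀ e, 1 ≤ S.b e
  bz : ∀ e, S.src e ∈ Z → S.b e = 1
  pos : ∀ q, q ∉ Z → ∀ l ∈ X S q, 1 ≤ val S l

/-- the totals of the accepted paths are summable to every exponent larger than one, and every arithmetic progression
contains a number which is the total of at most one accepted path -/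
structure Good (S : Sys) (em : S.E → ℕ) : Prop where
  summ : ∀ s : ℝ, 1 < s → Summable fun l : Acc S => ((tot S em (l : List S.E) + 1 : ℕ) : ℝ) ^ (-s)
  ap : ∀ a κ : ℕ, 1 ≤ κ → ∃ j, ∀ l ∈ Acc S, ∀ l' ∈ Acc S, tot S em l = a + κ * j → tot S em l' = a + κ * j → l = l'

/-- a cycle of slope one at `q` -/
def Slow (S : Sys) (q : S.Q) (w : List S.E) : Prop := w ≠ [] ∧ Path S q w q ∧ ∀ e ∈ w, S.b e = 1

/-- a slow cycle with emission at a live state which is reached -/
def Bad (S : Sys) (em : S.E → ℕ) (q : S.Q) : Prop :=
  Live S q ∧ (X S q).Nonempty ∧ ∃ w, Slow S q w ∧ 1 ≤ cst S em w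

/-- no emission on slow cycles at live states which are reached -/
def NoBad (S : Sys) (em : S.E → ℕ) : Prop :=
  ∀ q, Live S q → (X S q).Nonempty → ∀ w, Slow S q w → cst S em w = 0

/-- `y` is a path from `q` to a final state -/
def Con (S : Sys) (q : S.Q) (y : List S.E) : Prop := ∃ q' ∈ S.fin, Path S q y q'

/-- the path `l` from the start visits `B` -/
def Vis (S : Sys) (B : Set S.Q) (l : List S.E) : Prop :=
  ∃ l2 l1 q, l = l2 ++ l1 ∧ q ∈ B ∧ Path S S.q0 l1 q

/-- the system without the states in `B` -/
def sub (S : Sys) (B : Set S.Q) : Sys where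
  Q := S.Q
  E := {e : S.E // S.src e ∉ B ∧ S.tgt e ∉ B}
  finQ := S.finQ
  finE := by
    have := S.finE
    infer_instance
  q0 := S.q0
  src := fun e => S.src e.1
  tgt := fun e => S.tgt e.1
  b := fun e => S.b e.1
  d := fun e => S.d e.1
  fin := S.fin \ B

/-- value and emission, both capped at `N + 1`, are added to the states; edges from states of value zero get slope one -/
def refn (S : Sys) (em : S.E → ℕ) (N : ℕ) : Sys where
  Q := S.Q × Fin (N + 2) × Fin (N + 2)
  E := S.E × Fin (N + 2) × Fin (N + 2)
  finQ := by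
    have := S.finQ
    infer_instance
  finE := by
    have := S.finE
    infer_instance
  q0 := (S.q0, 0, 0)
  src := fun e => (S.src e.1, e.2)
  tgt := fun e => (S.tgt e.1, ⟨min (S.b e.1 * e.2.1.1 + S.d e.1) (N + 1), by omega⟩,
    ⟨min (e.2.2.1 + em e.1) (N + 1), by omega⟩)
  b := fun e => if e.2.1.1 = 0 then 1 else S.b e.1
  d := fun e => S.d e.1
  fin := {q | q.1 ∈ S.fin ∧ N < q.2.1.1 + q.2.2.1}

end Pool.Agent.Lib.UCU
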