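import Pool.Agent.Lib.UCU.Defs

/-!
# UCU / Rfn: the refined system

PROOF IN WORDS. Model: UCW/Cap.lean (`min_arith`, `pr`, `cap_down`, `cap_inj`, `cap_up`), now with two capped numbers: a path `w` of `refn S em N` from `q0` to `(q, c1, c2)` gives by forgetting (`pr`) a path of `S` to `q` with the same value (also on edges with changed slope: there the value of the rest is `0`, because its cap is `0` and `N + 1 ≥ 1`, and `b * 0 = 1 * 0`) and the same emission, `c1 = min (val) (N + 1)`, `c2 = min (cst) (N + 1)`. Final: `N < c1 + c2 ↔ N < val + cst`. `Z` = the states with `c1 = 0`: `Ref.b1` by the `if` and `hb`, `Ref.bz`: `src e ∈ Z` means `e.2.1 = 0`; `Ref.pos`: `c1 ≠ 0` gives `val ≥ 1`.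
-/

set_option autoImplicit false

namespace Pool.Agent.Lib.UCU

open Pool.Agent.Lib.UCX
open Pool.Agent.Lib.UCV

private theorem rmin_arith (b v d N : ℕ) :
    min (b * min v (N + 1) + d) (N + 1) = min (b * v + d) (N + 1) := by
  rcases le_total v (N + 1) with h | h
  · rw [min_eq_left h]
  · rw [min_eq_right h]
    rcases Nat.eq_zero_or_pos b with hb | hb
    · subst hb
      simp
    · have h1 : N + 1 ≤ b * (N + 1) := Nat.le_mul_of_pos_left _ hb
      have h2 : N + 1 ≤ b * v := h.trans (Nat.le_mul_of_pos_left _ hb)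
      rw [min_eq_right (by omega), min_eq_right (by omega)]

/-- the capped numbers are forgotten -/
private def rpr (S : Sys) (em : S.E → ℕ) (N : ℕ) : List (refn S em N).E → List S.E
  | [] => []
  | e :: w => e.1 :: rpr S em N w

private theorem rcst_cons (S : Sys) (em : S.E → ℕ) (e : S.E) (l : List S.E) :
    cst S em (e :: l) = em e + cst S em l := by
  unfold cst
  rw [List.map_cons, List.sum_cons]

private theorem refn_down (S : Sys) (em : S.E → ℕ) (N : ℕ) : ∀ (w : List (refn S em N).E) (q : (refn S em N).Q),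
    Path (refn S em N) (refn S em N).q0 w q →
      Path S S.q0 (rpr S em N w) q.1 ∧ val (refn S em N) w = val S (rpr S em N w) ∧
        cst (refn S em N) (fun e => em e.1) w = cst S em (rpr S em N w) ∧
        q.2.1.1 = min (val S (rpr S em N w)) (N + 1) ∧ q.2.2.1 = min (cst S em (rpr S em N w)) (N + 1) := by
  intro w
  induction w with
  | nil =>
    intro q h
    cases h
    refine ⟨Path.nil _, rfl, rfl, ?_, ?_⟩
    · show (0 : ℕ) = min 0 (N + 1)
      simp
    · show (0 : ℕ) = min 0 (N + 1)
      simp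
  | cons e w ih =>
    intro q h
    cases h with
    | cons _ h' =>
      obtain ⟨h1, h2, h3, h4, h5⟩ := ih _ h'
      have h4' : e.2.1.1 = min (val S (rpr S em N w)) (N + 1) := h4
      have h5' : e.2.2.1 = min (cst S em (rpr S em N w)) (N + 1) := h5
      refine ⟨Path.cons (S := S) e.1 h1, ?_, ?_, ?_, ?_⟩
      · show (if e.2.1.1 = 0 then 1 else S.b e.1) * val (refn S em N) w + S.d e.1 =
          S.b e.1 * val S (rpr S em N w) + S.d e.1
        rw [h2]
        split_ifs with h0
        · have h6 : val S (rpr S em N w) = 0 := by omega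
          rw [h6]
          simp
        · rfl
      · rw [rcst_cons]
        show em e.1 + cst (refn S em N) (fun e => em e.1) w = cst S em (e.1 :: rpr S em N w)
        rw [rcst_cons, h3]
      · show min (S.b e.1 * e.2.1.1 + S.d e.1) (N + 1) =
          min (S.b e.1 * val S (rpr S em N w) + S.d e.1) (N + 1)
        rw [h4']
        exact rmin_arith _ _ _ _
      · show min (e.2.2.1 + em e.1) (N + 1) = min (cst S em (e.1 :: rpr S em N w)) (N + 1)
        rw [rcst_cons, h5']
        omega

private theorem refn_inj (S : Sys) (em : S.E → ℕ) (N : ℕ) : ∀ (w w' : List (refn S em N).E) (q q' : (refn S em N).Q),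
    Path (refn S em N) (refn S em N).q0 w q → Path (refn S em N) (refn S em N).q0 w' q' →
      rpr S em N w = rpr S em N w' → w = w' := by
  intro w
  induction w with
  | nil =>
    intro w' q q' _ _ h
    cases w' with
    | nil => rfl
    | cons e' w' => exact absurd h (by simp [rpr])
  | cons e w ih =>
    intro w' q q' hq hq' h
    cases w' with
    | nil => exact absurd h (by simp [rpr])
    | cons e' w' =>
      have h0 : e.1 :: rpr S em N w = e'.1 :: rpr S em N w' := h
      obtain ⟨h1, h2⟩ := List.cons.inj h0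
      cases hq with
      | cons _ hp =>
        cases hq' with
        | cons _ hp' =>
          have h3 : w = w' := ih w' _ _ hp hp' h2
          obtain ⟨-, -, -, a1, a2⟩ := refn_down S em N _ _ hp
          obtain ⟨-, -, -, b1, b2⟩ := refn_down S em N _ _ hp'
          have a1' : e.2.1.1 = min (val S (rpr S em N w)) (N + 1) := a1
          have a2' : e.2.2.1 = min (cst S em (rpr S em N w)) (N + 1) := a2
          have b1' : e'.2.1.1 = min (val S (rpr S em N w')) (N + 1) := b1
          have b2' : e'.2.2.1 = min (cst S em (rpr S em N w')) (N + 1) := b2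
          have h6 : e = e' := by
            refine Prod.ext h1 (Prod.ext (Fin.ext ?_) (Fin.ext ?_))
            · rw [a1', b1', h3]
            · rw [a2', b2', h3]
          rw [h3, h6]

private theorem refn_up (S : Sys) (em : S.E → ℕ) (N : ℕ) : ∀ (l : List S.E) (q : S.Q), Path S S.q0 l q →
    ∃ (w : List (refn S em N).E) (c : Fin (N + 2) × Fin (N + 2)), Path (refn S em N) (refn S em N).q0 w (q, c) ∧
      rpr S em N w = l := by
  intro l
  induction l with
  | nil =>
    intro q h
    cases h
    exact ⟨[], (0, 0), Path.nil _, rfl⟩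
  | cons e l ih =>
    intro q h
    cases h with
    | cons _ h' =>
      obtain ⟨w, c, h1, h2⟩ := ih _ h'
      have h3 : Path (refn S em N) (refn S em N).q0 ((e, c) :: w) ((refn S em N).tgt (e, c)) :=
        Path.cons (S := refn S em N) (e, c) h1
      refine ⟨(e, c) :: w, _, h3, ?_⟩
      show e :: rpr S em N w = e :: l
      rw [h2]

theorem refn_code (S : Sys) (em : S.E → ℕ) (N : ℕ) : ∃ π : List (refn S em N).E → List S.E,
    (∀ l ∈ Acc (refn S em N), π l ∈ Acc S ∧ tot (refn S em N) (fun e => em e.1) l = tot S em (π l) ∧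
      N < tot S em (π l)) ∧
    (∀ l ∈ Acc (refn S em N), ∀ l' ∈ Acc (refn S em N), π l = π l' → l = l') ∧
    ∀ l ∈ Acc S, N < tot S em l → ∃ l' ∈ Acc (refn S em N), π l' = l := by
  refine ⟨rpr S em N, ?_, ?_, ?_⟩
  · rintro l ⟨q, hq, hl⟩
    obtain ⟨h1, h2, h3, h4, h5⟩ := refn_down S em N l q hl
    have h6 : N < q.2.1.1 + q.2.2.1 := hq.2
    refine ⟨⟨q.1, hq.1, h1⟩, ?_, ?_⟩
    · unfold tot
      rw [h2, h3]
    · unfold tot
      omega
  · rintro l ⟨q, hq, hl⟩ l' ⟨q', hq', hl'⟩ h
    exact refn_inj S em N l l' q q' hl hl' h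
  · rintro l ⟨q, hq, hl⟩ hN
    obtain ⟨w, c, h1, h2⟩ := refn_up S em N l q hl
    obtain ⟨-, -, -, h4, h5⟩ := refn_down S em N w (q, c) h1
    have h4' : c.1.1 = min (val S (rpr S em N w)) (N + 1) := h4
    have h5' : c.2.1 = min (cst S em (rpr S em N w)) (N + 1) := h5
    refine ⟨w, ⟨(q, c), ⟨hq, ?_⟩, h1⟩, h2⟩
    show N < c.1.1 + c.2.1
    unfold tot at hN
    rw [h4', h5', h2]
    omega

theorem refn_ref (S : Sys) (em : S.E → ℕ) (N : ℕ) (hb : ∀ e, 1 ≤ S.b e) :
    Ref (refn S em N) {q | q.2.1.1 = 0} := by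
  refine ⟨fun e => ?_, fun e he => ?_, fun q hq l hl => ?_⟩
  · show 1 ≤ if e.2.1.1 = 0 then 1 else S.b e.1
    split_ifs
    · exact le_rfl
    · exact hb e.1
  · have h1 : e.2.1.1 = 0 := he
    exact if_pos h1
  · obtain ⟨-, h2, -, h4, -⟩ := refn_down S em N l q hl
    have h5 : ¬ q.2.1.1 = 0 := hq
    rw [h2]
    omega

end Pool.Agent.Lib.UCU
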