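import Pool.Agent.Lib.UCU.Defs

/-!
# UCU / Alg: powers of a cycle

PROOF IN WORDS. Inductions on `j` with `rep w (j + 1) = w ++ rep w j` (`List.replicate_succ`, `List.flatten_cons`); `val_append` (`val (w ++ l) = bm w * val l + val w`), `path_append`. `rep_comm`: `rep w j ++ w = w ++ rep w j`. `tot_ray`: `val (rep w j ++ x) = val x + j * val w` for slope one, then `val_append` with `y`. `val_pow`: first `val (rep z (i+1) ++ x) = β * val (rep z i ++ x) + val z`, so the differences satisfy `δ (i+1) = β δ i`, `δ 0 = (β - 1) val x + val z`; sum over `M` steps.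
-/

set_option autoImplicit false

namespace Pool.Agent.Lib.UCU

open Pool.Agent.Lib.UCX
open Pool.Agent.Lib.UCV

theorem rep_succ {α : Type} (w : List α) (j : ℕ) : rep w (j + 1) = w ++ rep w j := by
  unfold rep
  rw [List.replicate_succ, List.flatten_cons]

theorem rep_comm {α : Type} (w : List α) (j : ℕ) : rep w j ++ w = w ++ rep w j := by
  induction j with
  | zero => simp [rep]
  | succ j ih => rw [rep_succ, List.append_assoc, ih]

theorem rep_path (S : Sys) {q : S.Q} {w : List S.E} (hw : Path S q w q) (j : ℕ) : Path S q (rep w j) q := by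
  induction j with
  | zero => exact Path.nil _
  | succ j ih =>
    rw [rep_succ]
    exact path_append ih hw

theorem bm_append (S : Sys) (w l : List S.E) : bm S (w ++ l) = bm S w * bm S l := by
  induction w with
  | nil => simp [bm]
  | cons e w ih =>
    show S.b e * bm S (w ++ l) = S.b e * bm S w * bm S l
    rw [ih, mul_assoc]

theorem bm_rep (S : Sys) (z : List S.E) (i : ℕ) : bm S (rep z i) = bm S z ^ i := by
  induction i with
  | zero => rfl
  | succ i ih => rw [rep_succ, bm_append, ih, pow_succ, mul_comm]

theorem cst_append (S : Sys) (em : S.E → ℕ) (w l : List S.E) : cst S em (w ++ l) = cst S em w + cst S em l := by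
  unfold cst
  rw [List.map_append, List.sum_append]

theorem cst_rep (S : Sys) (em : S.E → ℕ) (w : List S.E) (j : ℕ) : cst S em (rep w j) = j * cst S em w := by
  induction j with
  | zero => simp [rep, cst]
  | succ j ih => rw [rep_succ, cst_append, ih, Nat.succ_mul, add_comm]

private theorem bm_one (S : Sys) : ∀ w : List S.E, (∀ e ∈ w, S.b e = 1) → bm S w = 1
  | [], _ => rfl
  | e :: w, h => by
    show S.b e * bm S w = 1
    rw [h e (List.mem_cons_self), bm_one S w fun x hx => h x (List.mem_cons_of_mem _ hx)]

theorem val_ray (S : Sys) {w : List S.E} (hb : ∀ e ∈ w, S.b e = 1) (x : List S.E) (j : ℕ) :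
    val S (rep w j ++ x) = val S x + j * val S w := by
  induction j with
  | zero => simp [rep]
  | succ j ih =>
    rw [rep_succ, List.append_assoc, val_append, ih, bm_one S w hb]
    ring

theorem tot_ray (S : Sys) (em : S.E → ℕ) {w : List S.E} (hb : ∀ e ∈ w, S.b e = 1) (y x : List S.E) (j : ℕ) :
    tot S em (y ++ (rep w j ++ x)) = tot S em (y ++ x) + (bm S y * val S w + cst S em w) * j := by
  unfold tot
  rw [val_append S y (rep w j ++ x), val_append S y x, cst_append, cst_append, cst_append, cst_rep, val_ray S hb]
  ring

theorem val_pow (S : Sys) (z x : List S.E) (hz : 1 ≤ bm S z) (i M : ℕ) :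
    val S (rep z (i + M) ++ x) = val S (rep z i ++ x) +
      bm S z ^ i * (∑ t ∈ Finset.range M, bm S z ^ t) * ((bm S z - 1) * val S x + val S z) := by
  obtain ⟨c, hc⟩ : ∃ c, bm S z = c + 1 := ⟨bm S z - 1, by omega⟩
  have hstep : ∀ i, val S (rep z (i + 1) ++ x) = bm S z * val S (rep z i ++ x) + val S z := by
    intro i
    rw [rep_succ, List.append_assoc, val_append]
  have hd : ∀ i, val S (rep z (i + 1) ++ x) = val S (rep z i ++ x) +
      bm S z ^ i * ((bm S z - 1) * val S x + val S z) := by
    intro i
    induction i with
    | zero =>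
      rw [hstep 0, hc]
      show (c + 1) * val S x + val S z = val S x + (c + 1) ^ 0 * ((c + 1 - 1) * val S x + val S z)
      rw [Nat.add_sub_cancel]
      ring
    | succ i ih =>
      calc val S (rep z (i + 1 + 1) ++ x) = bm S z * val S (rep z (i + 1) ++ x) + val S z := hstep (i + 1)
        _ = bm S z * (val S (rep z i ++ x) + bm S z ^ i * ((bm S z - 1) * val S x + val S z)) + val S z := by
          rw [← ih]
        _ = bm S z * val S (rep z i ++ x) + val S z +
            bm S z ^ (i + 1) * ((bm S z - 1) * val S x + val S z) := by ring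
        _ = val S (rep z (i + 1) ++ x) + bm S z ^ (i + 1) * ((bm S z - 1) * val S x + val S z) := by
          rw [← hstep i]
  induction M with
  | zero => simp
  | succ M ih =>
    rw [← add_assoc, hd (i + M), ih, Finset.sum_range_succ, pow_add]
    ring

end Pool.Agent.Lib.UCU
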