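import Pool.Agent.Lib.UCU.RayB
import Pool.Agent.Lib.UCU.Srs

/-!
# UCU / BadS: the series of the accepted paths through bad states

PROOF IN WORDS. `B = {q | Bad S em q}`; for `q ∈ B` choose the slow cycle `W q`, `cst (W q) ≥ 1`. First visit: every accepted `l` which visits `B` is `y ++ x` where `x` is the shortest suffix of `l` which is a path from `q0` to a state of `B` (strong induction / `Nat.find` on the length of the suffix; the end `q` of `x` is unique, `path_end`); the proper suffixes of `x` do not end in `B`, so `x` does not start with `W q` (otherwise `x = W q ++ x'` and `x'` ends at `q` too: `path_split` and `Path S q (W q) q`; precisely: `x' ` is a path to some `r`, `W q` a path from `r` to `q`; as `W q ≠ []` the first edge of the cycle starts at `q` and at `r`, so `r = q`). `y` is a path from `q` to a final state, `y = y0 ++ rep (W q) j` with `y0` not ending with `W q` (`strip_r`). So `I` = the set of the pairs `(x, y0)` with `x ∈ X q` for a `q ∈ B`, no proper suffix of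 `x` ends in `B`, `Con S q y0`, `y0` not ending with `W q`: finite by `ray_fin` and `con_fin` (a finite union over `q` of products of finite sets), and `((x, y0), j) ↦ y0 ++ (rep (W q) j ++ x)` is a bijection from `I × ℕ` onto the accepted paths which visit `B` (injective: `x` is determined as the shortest suffix which ends in `B`, then `strip_r_uniq`). The total is `tot (y0 ++ x) + κ j`, `κ = bm y0 * val (W q) + cst (W q) ≥ 1` (`tot_ray`). `rays_series`, summability from `Good.summ`.
-/

set_option autoImplicit false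

open Filter Topology Finset

namespace Pool.Agent.Lib.UCU

open Pool.Agent.Lib.UCX
open Pool.Agent.Lib.UCV

private theorem path_start {S : Sys} {w : List S.E} (hw : w ≠ []) : ∀ {r q r' q' : S.Q}, Path S r w q → Path S r' w q' → r = r' := by
  induction w with
  | nil => exact absurd rfl hw
  | cons e w ih =>
    intro r q r' q' h h'
    cases h with
    | cons _ h1 =>
      cases h' with
      | cons _ h2 =>
        by_cases h3 : w = []
        · subst h3
          have e1 : S.src e = r := by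
            have h4 : Path S r [] r := Path.nil r
            exact path_end h1 h4
          have e2 : S.src e = r' := path_end h2 (Path.nil r')
          rw [← e1, ← e2]
        · exact ih h3 h1 h2

/-- a path from the start which visits `B` for the first time at its end -/
private def Mn (S : Sys) (B : Set S.Q) (x : List S.E) : Prop :=
  (∃ q ∈ B, Path S S.q0 x q) ∧ ∀ y' x', x = y' ++ x' → y' ≠ [] → ¬ ∃ q ∈ B, Path S S.q0 x' q

private theorem mn_ex (S : Sys) (B : Set S.Q) (n : ℕ) : ∀ (l y x : List S.E), x.length ≤ n → l = y ++ x →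
    (∃ q ∈ B, Path S S.q0 x q) → ∃ y x, l = y ++ x ∧ Mn S B x := by
  induction n with
  | zero =>
    intro l y x hx hl hq
    have h0 : x = [] := List.length_eq_zero_iff.1 (by omega)
    refine ⟨y, x, hl, hq, ?_⟩
    intro y' x' h hy
    rw [h0] at h
    exact absurd (List.append_eq_nil_iff.1 h.symm).1 hy
  | succ n ih =>
    intro l y x hx hl hq
    by_cases hm : Mn S B x
    · exact ⟨y, x, hl, hm⟩
    · have h1 : ∃ y' x', x = y' ++ x' ∧ y' ≠ [] ∧ ∃ q ∈ B, Path S S.q0 x' q := by
        by_contra hcon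
        apply hm
        refine ⟨hq, fun y' x' h hy hc => hcon ⟨y', x', h, hy, hc⟩⟩
      obtain ⟨y', x', h2, h3, h4⟩ := h1
      have h5 : 0 < y'.length := List.length_pos_iff.2 h3
      have h6 : x.length = y'.length + x'.length := by rw [h2, List.length_append]
      exact ih l (y ++ y') x' (by omega) (by rw [hl, h2, List.append_assoc]) h4

private theorem mn_uniq {S : Sys} {B : Set S.Q} {y x y' x' : List S.E} (h : y ++ x = y' ++ x') (hx : Mn S B x)
    (hx' : Mn S B x') : x = x' ∧ y = y' := by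
  rcases List.append_eq_append_iff.1 h with ⟨z, h1, h2⟩ | ⟨z, h1, h2⟩
  · by_cases hz : z = []
    · subst hz
      rw [List.nil_append] at h2
      rw [List.append_nil] at h1
      exact ⟨h2, h1.symm⟩
    · exact absurd hx'.1 (hx.2 z x' h2 hz)
  · by_cases hz : z = []
    · subst hz
      rw [List.nil_append] at h2
      rw [List.append_nil] at h1
      exact ⟨h2.symm, h1⟩
    · exact absurd hx.1 (hx'.2 z x h2 hz)

private theorem bad_summ (S : Sys) (em : S.E → ℕ) (hG : Good S em) (B : Set S.Q) (s : ℝ) (hs : 1 < s) :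
    Summable fun l : {l : List S.E // l ∈ Acc S ∧ Vis S B l} => ((tot S em (l : List S.E) + 1 : ℕ) : ℝ) ^ (-s) := by
  have h1 := hG.summ s hs
  have h2 : Function.Injective fun l : {l : List S.E // l ∈ Acc S ∧ Vis S B l} => (⟨l.1, l.2.1⟩ : Acc S) := by
    intro l l' h
    exact Subtype.ext (congrArg (fun z : Acc S => (z : List S.E)) h)
  have h3 := h1.comp_injective h2
  simpa only [Function.comp_def] using h3

theorem bad_series (S : Sys) (em : S.E → ℕ) (hb : ∀ e, 1 ≤ S.b e) (hG : Good S em) :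
    ∃ H : ℂ → ℂ, AnalyticAt ℂ H 1 ∧ ∀ s : ℝ, 1 < s →
      ((s : ℂ) - 1) * ∑' l : {l : List S.E // l ∈ Acc S ∧ Vis S {q | Bad S em q} l},
        ((tot S em (l : List S.E) + 1 : ℕ) : ℂ) ^ (-(s : ℂ)) = H s := by
  classical
  have hQ := S.finQ
  set B : Set S.Q := {q | Bad S em q} with hB
  have hWex : ∀ q : S.Q, ∃ w, q ∈ B → Slow S q w ∧ 1 ≤ cst S em w := by
    intro q
    by_cases hq : q ∈ B
    · obtain ⟨-, -, w, h1, h2⟩ := hq
      exact ⟨w, fun _ => ⟨h1, h2⟩⟩
    · exact ⟨[], fun h => absurd h hq⟩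
  choose W hW using hWex
  let T : Set (List S.E × List S.E) := {i | ∃ q, q ∈ B ∧ i.1 ∈ X S q ∧ Mn S B i.1 ∧ Con S q i.2 ∧ ¬ ∃ y', i.2 = y' ++ W q}
  have hT : T.Finite := by
    have h1 : (⋃ q ∈ B, ({x | x ∈ X S q ∧ ¬ ∃ x', x = W q ++ x'} ×ˢ {y | Con S q y ∧ ¬ ∃ y', y = y' ++ W q})).Finite := by
      refine Set.Finite.biUnion (Set.toFinite B) fun q hq => ?_
      obtain ⟨h2, h3⟩ := hW q hq
      exact (ray_fin S em hG h2 hq.1).prod (con_fin S em hb hG h2 h3 hq.2.1)
    refine h1.subset ?_
    rintro ⟨x, y0⟩ ⟨q, hq, hx, hm, hc, hn⟩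
    refine Set.mem_biUnion hq ⟨⟨hx, ?_⟩, hc, hn⟩
    rintro ⟨x', hx'⟩
    obtain ⟨h2, -⟩ := hW q hq
    have hxq : Path S S.q0 x q := hx
    rw [show x = W q ++ x' from hx'] at hxq
    obtain ⟨r, h3, h4⟩ := path_split _ _ hxq
    have h5 : r = q := path_start h2.1 h4 h2.2.1
    rw [h5] at h3
    exact hm.2 (W q) x' hx' h2.1 ⟨q, hq, h3⟩
  have hTf : Finite T := hT.to_subtype
  choose qI hqB hqX hqM hqC hqN using fun i : T => i.2
  have hacc : ∀ (i : T) (j : ℕ), i.1.2 ++ (rep (W (qI i)) j ++ i.1.1) ∈ Acc S ∧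
      Vis S B (i.1.2 ++ (rep (W (qI i)) j ++ i.1.1)) := by
    intro i j
    obtain ⟨q', hq', hp⟩ := hqC i
    have h1 : Path S (qI i) (rep (W (qI i)) j) (qI i) := rep_path S (hW _ (hqB i)).1.2.1 j
    have h2 : Path S S.q0 i.1.1 (qI i) := hqX i
    refine ⟨⟨q', hq', path_append (path_append h2 h1) hp⟩, ?_⟩
    exact ⟨i.1.2 ++ rep (W (qI i)) j, i.1.1, qI i, by rw [List.append_assoc], hqB i, h2⟩
  let f : T × ℕ → {l : List S.E // l ∈ Acc S ∧ Vis S B l} := fun p => ⟨_, hacc p.1 p.2⟩
  have hf : Function.Bijective f := by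
    constructor
    · rintro ⟨i, j⟩ ⟨i', j'⟩ h
      have h1 : i.1.2 ++ (rep (W (qI i)) j ++ i.1.1) = i'.1.2 ++ (rep (W (qI i')) j' ++ i'.1.1) := congrArg Subtype.val h
      rw [← List.append_assoc, ← List.append_assoc] at h1
      obtain ⟨h2, h3⟩ := mn_uniq h1 (hqM i) (hqM i')
      have h4 : qI i = qI i' := by
        have h5 : Path S S.q0 i.1.1 (qI i) := hqX i
        have h6 : Path S S.q0 i'.1.1 (qI i') := hqX i'
        rw [← h2] at h6
        exact path_end h5 h6
      have h7 := hqN i'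
      rw [← h4] at h3 h7
      obtain ⟨h8, h9⟩ := strip_r_uniq (W (qI i)) (hqN i) h7 h3
      have h10 : i = i' := Subtype.ext (Prod.ext h2 h9)
      rw [h10, h8]
    · rintro ⟨l, ⟨q', hq', hl⟩, hv⟩
      obtain ⟨l2, l1, q1, e1, e2, e3⟩ := hv
      obtain ⟨y, x, e4, e5⟩ := mn_ex S B l1.length l l2 l1 le_rfl e1 ⟨q1, e2, e3⟩
      obtain ⟨q, hq, hx⟩ := e5.1
      have hl' : Path S S.q0 l q' := hl
      rw [e4] at hl'
      obtain ⟨r, h3, h4⟩ := path_split _ _ hl'
      have h5 : r = q := path_end h3 hx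
      rw [h5] at h4
      obtain ⟨h2, -⟩ := hW q hq
      obtain ⟨j, y0, h6, h7⟩ := strip_r (W q) h2.1 y
      rw [h6] at h4
      obtain ⟨r', h8, h9⟩ := path_split _ _ h4
      have h10 : r' = q := path_end h8 (rep_path S h2.2.1 j)
      rw [h10] at h9
      have hmem : (x, y0) ∈ T := ⟨q, hq, hx, e5, ⟨q', hq', h9⟩, h7⟩
      refine ⟨(⟨(x, y0), hmem⟩, j), ?_⟩
      have h11 : qI ⟨(x, y0), hmem⟩ = q := path_end (hqX ⟨(x, y0), hmem⟩) hx
      apply Subtype.ext
      show y0 ++ (rep (W (qI ⟨(x, y0), hmem⟩)) j ++ x) = l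
      rw [h11, e4, h6, List.append_assoc]
  have key := rays_series (fun l : {l : List S.E // l ∈ Acc S ∧ Vis S B l} => tot S em (l : List S.E))
    (fun i : T => tot S em (i.1.2 ++ i.1.1)) (fun i : T => bm S i.1.2 * val S (W (qI i)) + cst S em (W (qI i)))
    (fun i => le_trans (hW _ (hqB i)).2 (Nat.le_add_left _ _)) ?_ f hf ?_
  · exact key
  · intro s hs
    exact bad_summ S em hG B s hs
  · intro i j
    exact tot_ray S em (hW _ (hqB i)).1.2.2 i.1.2 i.1.1 j

end Pool.Agent.Lib.UCU
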