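import Mathlib

/-!
# UCU / NT: a divisibility

PROOF IN WORDS. `β = 1`: `i = 0`, `M = K + E` (the sum is `M`). `β ≥ 2`: `i = E`, `κ = K β^E + E`. For a prime `p ∣ β`: `p^E ∤ κ`, otherwise `p^E ∣ E` (as `p^E ∣ β^E`), but `p^E ≥ 2^E > E ≥ 1`. Write `κ = u * m` with `m` coprime to `β` and every prime factor of `u` dividing `β` (for example `m` = the largest divisor coprime to `β`, or strong induction); then `u ∣ β^E` (for each prime `p ∣ u` the exponent of `p` in `u` is `< E ≤` the exponent in `β^E`; `Nat.factorization_le_iff_dvd` or similar). `M = κ * φ(m * (β - 1))`: `m * (β - 1) ∣ β^M - 1 = (β - 1) * ∑ β^t` (`β` is coprime to `m (β - 1)`; `Nat.ModEq.pow_totient`; `Nat.geomSum_eq` or `mul_geom_sum`), so `m ∣ ∑ β^t`; `u * m ∣ β^E * ∑ β^t` and `κ ∣ M`.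
-/

set_option autoImplicit false

namespace Pool.Agent.Lib.UCU

private theorem nt_dec (β E κ : ℕ) (hκ : 0 < κ) (h : ∀ p : ℕ, p.Prime → p ∣ β → ¬ p ^ E ∣ κ) :
    ∃ u m : ℕ, κ = u * m ∧ u ∣ β ^ E ∧ Nat.Coprime β m := by
  have hg : 0 < Nat.gcd κ (β ^ E) := Nat.gcd_pos_of_pos_left _ hκ
  obtain ⟨m, hm⟩ := Nat.gcd_dvd_left κ (β ^ E)
  refine ⟨Nat.gcd κ (β ^ E), m, hm, Nat.gcd_dvd_right _ _, ?_⟩
  rw [Nat.coprime_iff_gcd_eq_one]
  by_contra hne
  obtain ⟨p, hp, hpd⟩ := Nat.exists_prime_and_dvd hne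
  have hpβ : p ∣ β := hpd.trans (Nat.gcd_dvd_left _ _)
  have hpm : p ∣ m := hpd.trans (Nat.gcd_dvd_right _ _)
  have h1 : Nat.gcd κ (β ^ E) * p ∣ κ := by
    conv_rhs => rw [hm]
    exact Nat.mul_dvd_mul_left _ hpm
  obtain ⟨a, g, hpg, hag⟩ := Nat.exists_eq_pow_mul_and_not_dvd hg.ne' p hp.ne_one
  have h2 : p ^ (a + 1) ∣ κ := by
    refine dvd_trans ?_ h1
    rw [hag, pow_succ]
    exact ⟨g, by ring⟩
  have h3 : a + 1 ≤ E := by
    by_contra h4
    exact h p hp hpβ ((pow_dvd_pow p (by omega)).trans h2)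
  have h5 : p ^ (a + 1) ∣ β ^ E := (pow_dvd_pow p h3).trans (pow_dvd_pow_of_dvd hpβ E)
  have h6 : g ∣ β ^ E := (Dvd.intro_left _ hag.symm).trans (Nat.gcd_dvd_right κ (β ^ E))
  have h7 : Nat.Coprime (p ^ (a + 1)) g := ((Nat.Prime.coprime_iff_not_dvd hp).2 hpg).pow_left _
  have h8 : p ^ (a + 1) * g ∣ β ^ E := h7.mul_dvd_of_dvd_of_dvd h5 h6
  have h9 : Nat.gcd κ (β ^ E) * p = p ^ (a + 1) * g := by
    rw [hag, pow_succ]
    ring
  have h10 : Nat.gcd κ (β ^ E) * p ∣ Nat.gcd κ (β ^ E) := Nat.dvd_gcd h1 (h9 ▸ h8)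
  have h11 := Nat.le_of_dvd hg h10
  have h12 := hp.two_le
  nlinarith

theorem nt (β E K : ℕ) (hβ : 1 ≤ β) (hE : 1 ≤ E) : ∃ i M : ℕ, 1 ≤ M ∧
    (K * β ^ i + E) ∣ β ^ i * ∑ t ∈ Finset.range M, β ^ t ∧ (K * β ^ i + E) ∣ M := by
  rcases Nat.eq_or_lt_of_le hβ with h1 | h2
  · subst h1
    refine ⟨0, K + E, by omega, ?_, ?_⟩ <;> simp
  · have hκ : 0 < K * β ^ E + E := by omega
    obtain ⟨u, m, hum, hu, hm⟩ := nt_dec β E (K * β ^ E + E) hκ (by
      intro p hp hpβ hd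
      have h3 : p ^ E ∣ E := by
        have h4 : p ^ E ∣ K * β ^ E := Dvd.dvd.mul_left (pow_dvd_pow_of_dvd hpβ E) K
        exact (Nat.dvd_add_right h4).1 hd
      have h5 := Nat.le_of_dvd (by omega) h3
      have h6 : E < p ^ E := Nat.lt_pow_self hp.one_lt
      omega)
    have hm0 : 0 < m := by
      rcases Nat.eq_zero_or_pos m with h | h
      · rw [h, Nat.mul_zero] at hum
        omega
      · exact h
    have hc : Nat.Coprime β (m * (β - 1)) := by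
      refine Nat.Coprime.mul_right hm ?_
      have h3 : β = (β - 1) + 1 := by omega
      rw [Nat.coprime_comm]
      conv_rhs => rw [h3]
      simp
    have hpos : 0 < Nat.totient (m * (β - 1)) := Nat.totient_pos.2 (Nat.mul_pos hm0 (by omega))
    refine ⟨E, (K * β ^ E + E) * Nat.totient (m * (β - 1)), Nat.mul_pos hκ hpos, ?_, Dvd.intro _ rfl⟩
    set M := (K * β ^ E + E) * Nat.totient (m * (β - 1)) with hM
    have h4 : β ^ M ≡ 1 [MOD m * (β - 1)] := by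
      have h5 := (Nat.ModEq.pow_totient hc).pow (K * β ^ E + E)
      rw [one_pow, ← pow_mul] at h5
      rw [hM, Nat.mul_comm (K * β ^ E + E)]
      exact h5
    have h6 : m * (β - 1) ∣ β ^ M - 1 := (Nat.modEq_iff_dvd' (Nat.one_le_pow _ _ (by omega))).1 h4.symm
    have h7 : (∑ t ∈ Finset.range M, β ^ t) * (β - 1) = β ^ M - 1 := by
      have h8 := Nat.geomSum_eq h2 M
      rw [h8]
      exact Nat.div_mul_cancel (by
        have := Nat.sub_dvd_pow_sub_pow β 1 M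
        rwa [one_pow] at this)
    have h9 : m ∣ ∑ t ∈ Finset.range M, β ^ t := by
      rw [← h7] at h6
      exact Nat.dvd_of_mul_dvd_mul_right (by omega) h6
    rw [hum]
    exact Nat.mul_dvd_mul hu h9

end Pool.Agent.Lib.UCU
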