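import Pool.Agent.Lib.UCU.Str

/-!
# UCU / RayA: rays of a slow cycle

PROOF IN WORDS. `no_const'`: an injective family of accepted paths indexed by an infinite type cannot have constant total (`Good.summ` with `s = 2`, `summable_const_iff`; model `no_const` in UCV/TameOf). `ray_pos`: otherwise `tot (y ++ (rep w j ++ x))` is the same for all `j` (`tot_ray`), and `j ↦ y ++ (rep w j ++ x)` is injective (lengths, `w ≠ []`). `ray_fin`: fix a continuation `y` (`Live`), `κ = bm y * val w + cst w ≥ 1` (`ray_pos`, if there is any `x`). If the set is infinite, two different elements `x`, `x'` have `tot (y ++ x) ≡ tot (y ++ x')` modulo `κ` (`Set.Infinite.exists_ne_map_eq_of_mapsTo`, finitely many residues), say `tot (y ++ x') = tot (y ++ x) + κ i`. `Good.ap` for `a = tot (y ++ x')`, `κ` gives `j` with `y ++ (rep w (i + j) ++ x) = y ++ (rep w j ++ x')`; cancel `y`; `strip_l_uniq` gives `x = x'`, a contradiction.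
-/

set_option autoImplicit false

namespace Pool.Agent.Lib.UCU

open Pool.Agent.Lib.UCX
open Pool.Agent.Lib.UCV

theorem no_const' (S : Sys) (em : S.E → ℕ) (hG : Good S em) {Y : Type} [Infinite Y] (f : Y → List S.E)
    (hf : Function.Injective f) (hacc : ∀ y, f y ∈ Acc S) (c : ℕ) (hc : ∀ y, tot S em (f y) = c) : False := by
  have h2 := (hG.summ 2 (by norm_num)).comp_injective (i := fun y => (⟨f y, hacc y⟩ : Acc S))
    (fun a b hab => hf (congrArg Subtype.val hab))
  have h3 : (fun _ : Y => ((c + 1 : ℕ) : ℝ) ^ (-(2 : ℝ))) =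
      (fun l : Acc S => ((tot S em (l : List S.E) + 1 : ℕ) : ℝ) ^ (-(2 : ℝ))) ∘ fun y => (⟨f y, hacc y⟩ : Acc S) := by
    funext y
    show _ = ((tot S em (f y) + 1 : ℕ) : ℝ) ^ (-(2 : ℝ))
    rw [hc y]
  rw [← h3, summable_const_iff] at h2
  have h4 : 0 < ((c + 1 : ℕ) : ℝ) ^ (-(2 : ℝ)) := Real.rpow_pos_of_pos (by exact_mod_cast Nat.succ_pos c) _
  linarith

private theorem rep_len' {α : Type} (w : List α) (j : ℕ) : (rep w j).length = j * w.length := by
  unfold rep
  rw [List.length_flatten, List.map_replicate, List.sum_replicate, smul_eq_mul]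

theorem ray_pos (S : Sys) (em : S.E → ℕ) (hG : Good S em) {q : S.Q} {w x y : List S.E} (hw : Slow S q w)
    (hx : x ∈ X S q) (hy : Con S q y) : 1 ≤ bm S y * val S w + cst S em w := by
  by_contra h
  have h0 : bm S y * val S w + cst S em w = 0 := by omega
  obtain ⟨q', hq', hyp⟩ := hy
  have hlen : 0 < w.length := List.length_pos_iff.2 hw.1
  refine no_const' S em hG (Y := ℕ) (fun j => y ++ (rep w j ++ x)) ?_ ?_ (tot S em (y ++ x)) ?_
  · intro a b hab
    have h3 := List.append_cancel_right (List.append_cancel_left hab)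
    have h4 := congrArg List.length h3
    rw [rep_len', rep_len'] at h4
    exact Nat.eq_of_mul_eq_mul_right hlen h4
  · intro j
    exact ⟨q', hq', path_append (path_append hx (rep_path S hw.2.1 j)) hyp⟩
  · intro j
    show tot S em (y ++ (rep w j ++ x)) = _
    rw [tot_ray S em hw.2.2, h0, Nat.zero_mul, Nat.add_zero]

theorem ray_fin (S : Sys) (em : S.E → ℕ) (hG : Good S em) {q : S.Q} {w : List S.E} (hw : Slow S q w)
    (hq : Live S q) : {x | x ∈ X S q ∧ ¬ ∃ x', x = w ++ x'}.Finite := by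
  by_contra hinf
  obtain ⟨q', hq', y, hyp⟩ := hq
  have hinf' : {x | x ∈ X S q ∧ ¬ ∃ x', x = w ++ x'}.Infinite := hinf
  obtain ⟨z, hz, -⟩ := hinf'.nonempty
  have hκ : 1 ≤ bm S y * val S w + cst S em w := ray_pos S em hG hw hz ⟨q', hq', hyp⟩
  set κ := bm S y * val S w + cst S em w with hκd
  have key : ∀ x x' : List S.E, x ∈ X S q → (¬ ∃ x0, x = w ++ x0) → x' ∈ X S q → (¬ ∃ x0, x' = w ++ x0) →
      tot S em (y ++ x) ≤ tot S em (y ++ x') → tot S em (y ++ x) % κ = tot S em (y ++ x') % κ → x = x' := by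
    intro x x' h1 h2 h3 h4 hle hmod
    obtain ⟨i, hi⟩ := (Nat.modEq_iff_dvd' hle).1 hmod
    have hi' : tot S em (y ++ x') = tot S em (y ++ x) + κ * i := by omega
    obtain ⟨j, hj⟩ := hG.ap (tot S em (y ++ x')) κ hκ
    have h5 := hj (y ++ (rep w (i + j) ++ x)) ⟨q', hq', path_append (path_append h1 (rep_path S hw.2.1 (i + j))) hyp⟩
      (y ++ (rep w j ++ x')) ⟨q', hq', path_append (path_append h3 (rep_path S hw.2.1 j)) hyp⟩
      (by rw [tot_ray S em hw.2.2, hi', ← hκd]; ring) (by rw [tot_ray S em hw.2.2, ← hκd])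
    exact (strip_l_uniq w h2 h4 (List.append_cancel_left h5)).2
  obtain ⟨x, hx, x', hx', hne, he⟩ := hinf'.exists_ne_map_eq_of_mapsTo
    (f := fun x => tot S em (y ++ x) % κ) (t := {m | m < κ}) (fun x _ => Nat.mod_lt _ hκ) (Set.finite_lt_nat κ)
  rcases le_total (tot S em (y ++ x)) (tot S em (y ++ x')) with hle | hle
  · exact hne (key x x' hx.1 hx.2 hx'.1 hx'.2 hle he)
  · exact hne (key x' x hx'.1 hx'.2 hx.1 hx.2 hle he.symm).symm

end Pool.Agent.Lib.UCU
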