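import Pool.Agent.Lib.UCU.RayA
import Pool.Agent.Lib.UCU.NT
import Pool.Agent.Lib.UCU.Lng

/-!
# UCU / RayB: finitely many continuations after a slow cycle with emission

PROOF IN WORDS. Let `Y` be the set, `x ∈ X q`. If `Y` is infinite take `y ∈ Y` with `y.length ≥ w.length + |Q|` (`inf_long`), `y = y'' ++ y0` with `y0.length = w.length`; `long_cyc` for `y''` (path from the end of `y0`, `path_split`) gives `y = y2 ++ (z ++ y1)` with `z ≠ []` a cycle at `r` and `y1 = y1' ++ y0`. For `i` let `y i = y2 ++ (rep z i ++ y1)`: a path from `q` to the final state, and `y i` does not end with `w` (the last `w.length` edges are `y0` for all `i`, also for `y = y 1`, which does not end with `w`: `List.append_inj'`). `β = bm z ≥ 1` (`Ref.b1`), `E = cst w ≥ 1`, `K = bm y2 * bm y1 * val w`: `κ i := bm (y i) * val w + cst w = K β^i + E` (`bm_append`, `bm_rep`). `nt` gives `i`, `M ≥ 1` with `κ i ∣ β^i S_M`, `κ i ∣ M`. Then `κ i ∣ κ (i + M)` (`K β^(i+M) = K β^i + K β^i (β - 1) S_M`)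 and `tot (y (i+M) ++ x) = tot (y i ++ x) + κ i * n` for some `n` (`val_append`, `val_pow` for `z` and `y1 ++ x`, `cst_append`, `cst_rep`: the difference is `bm y2 * β^i S_M * (..) + M * cst z`). Put `a = tot (y (i+M) ++ x)`, `κ (i+M) = κ i * m`. `Good.ap` for `a`, `κ (i+M)` gives `j`: the total of `y (i+M) ++ (rep w j ++ x)` is `a + κ (i+M) j` (`tot_ray`) and the total of `y i ++ (rep w (n + m j) ++ x)` is the same, so the lists are equal; cancel `x` (`List.append_assoc`), `strip_r_uniq` gives `y (i+M) = y i`, impossible by the lengths (`z ≠ []`, `M ≥ 1`).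
-/

set_option autoImplicit false

namespace Pool.Agent.Lib.UCU

open Pool.Agent.Lib.UCX
open Pool.Agent.Lib.UCV

private theorem bm_pos (S : Sys) (hb : ∀ e, 1 ≤ S.b e) (l : List S.E) : 1 ≤ bm S l := by
  induction l with
  | nil => exact le_refl _
  | cons e l ih =>
    show 1 ≤ S.b e * bm S l
    exact Nat.mul_pos (hb e) ih

private theorem rep_length {α : Type} (w : List α) (j : ℕ) : (rep w j).length = j * w.length := by
  unfold rep
  rw [List.length_flatten, List.map_replicate, List.sum_replicate, smul_eq_mul]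

theorem con_fin (S : Sys) (em : S.E → ℕ) (hb : ∀ e, 1 ≤ S.b e) (hG : Good S em) {q : S.Q} {w : List S.E}
    (hw : Slow S q w) (he : 1 ≤ cst S em w) (hx : (X S q).Nonempty) :
    {y | Con S q y ∧ ¬ ∃ y', y = y' ++ w}.Finite := by
  by_contra hinf
  obtain ⟨x, hx⟩ := hx
  obtain ⟨y, ⟨⟨qf, hqf, hyp⟩, hyw⟩, hlen⟩ := inf_long S hinf (w.length + Nat.card S.Q)
  obtain ⟨-, hwp, hwb⟩ := hw
  -- the last part has the length of w
  obtain ⟨y'', y0, hy, hy0⟩ : ∃ y'' y0 : List S.E, y = y'' ++ y0 ∧ y0.length = w.length := by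
    refine ⟨y.take (y.length - w.length), y.drop (y.length - w.length), (List.take_append_drop _ _).symm, ?_⟩
    rw [List.length_drop]
    omega
  have hl2 : Nat.card S.Q ≤ y''.length := by
    have h1 := congrArg List.length hy
    rw [List.length_append] at h1
    omega
  rw [hy] at hyp
  obtain ⟨p, hp0, hp1⟩ := path_split y'' y0 hyp
  obtain ⟨y2, z, y1', r, hy3, hz, hc1, hc2, hc3⟩ := long_cyc S hp1 hl2
  have hy1 : Path S q (y1' ++ y0) r := path_append hp0 hc1
  obtain ⟨y1, hy1e⟩ : ∃ y1, y1 = y1' ++ y0 := ⟨_, rfl⟩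
  rw [← hy1e] at hy1
  obtain ⟨Y, hYe⟩ : ∃ Y : ℕ → List S.E, ∀ i, Y i = y2 ++ (rep z i ++ y1) := ⟨fun i => y2 ++ (rep z i ++ y1), fun _ => rfl⟩
  have hYp : ∀ i, Path S q (Y i) qf := by
    intro i
    rw [hYe]
    exact path_append (path_append hy1 (rep_path S hc2 i)) hc3
  have hYw : ∀ i, ¬ ∃ y', Y i = y' ++ w := by
    rintro i ⟨y', h1⟩
    rw [hYe, hy1e, ← List.append_assoc (rep z i), ← List.append_assoc y2] at h1
    have h2 := (List.append_inj' h1 hy0).2
    exact hyw ⟨y'', by rw [hy, h2]⟩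
  have hYl : ∀ i, (Y i).length = y2.length + (i * z.length + y1.length) := by
    intro i
    rw [hYe, List.length_append, List.length_append, rep_length]
  have hβ : 1 ≤ bm S z := bm_pos S hb z
  obtain ⟨K, hK⟩ : ∃ K, K = bm S y2 * bm S y1 * val S w := ⟨_, rfl⟩
  have hκ : ∀ i, bm S (Y i) * val S w + cst S em w = K * bm S z ^ i + cst S em w := by
    intro i
    rw [hYe, bm_append, bm_append, bm_rep, hK]
    ring
  obtain ⟨i, M, hM, hd1, hd2⟩ := nt (bm S z) (cst S em w) K hβ he
  obtain ⟨κ, hκi⟩ : ∃ κ, κ = K * bm S z ^ i + cst S em w := ⟨_, rfl⟩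
  rw [← hκi] at hd1 hd2
  -- the second slope
  obtain ⟨m, hm⟩ : κ ∣ K * bm S z ^ (i + M) + cst S em w := by
    obtain ⟨γ, hγ⟩ : ∃ γ, bm S z = γ + 1 := ⟨bm S z - 1, by omega⟩
    have h1 : bm S z ^ M = (∑ t ∈ Finset.range M, bm S z ^ t) * γ + 1 := by
      rw [hγ]
      exact (geom_sum_mul_add γ M).symm
    have h2 : K * bm S z ^ (i + M) + cst S em w =
        κ + K * γ * (bm S z ^ i * ∑ t ∈ Finset.range M, bm S z ^ t) := by
      rw [pow_add, h1, hκi]
      ring
    rw [h2]
    exact Dvd.dvd.add (dvd_refl _) (hd1.mul_left _)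
  -- the totals
  obtain ⟨n, hn⟩ : ∃ n, tot S em (Y (i + M) ++ x) = tot S em (Y i ++ x) + κ * n := by
    have h3 : κ ∣ bm S y2 * (bm S z ^ i * (∑ t ∈ Finset.range M, bm S z ^ t) *
        ((bm S z - 1) * val S (y1 ++ x) + val S z)) + M * cst S em z :=
      Dvd.dvd.add ((hd1.mul_right _).mul_left _) (hd2.mul_right _)
    obtain ⟨n, hn⟩ := h3
    refine ⟨n, ?_⟩
    have h4 : ∀ i, Y i ++ x = y2 ++ (rep z i ++ (y1 ++ x)) := by
      intro i
      rw [hYe, List.append_assoc, List.append_assoc]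
    rw [← hn, h4, h4]
    unfold tot
    rw [val_append S y2, val_append S y2, val_pow S z (y1 ++ x) hβ i M, cst_append S em y2, cst_append S em y2,
      cst_append S em (rep z (i + M)), cst_append S em (rep z i), cst_rep, cst_rep]
    ring
  have hκ1 : 1 ≤ K * bm S z ^ (i + M) + cst S em w := by omega
  obtain ⟨j, hj⟩ := hG.ap (tot S em (Y (i + M) ++ x)) (K * bm S z ^ (i + M) + cst S em w) hκ1
  have hacc : ∀ i j, Y i ++ (rep w j ++ x) ∈ Acc S := by
    intro i j
    exact ⟨qf, hqf, path_append (path_append hx (rep_path S hwp j)) (hYp i)⟩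
  have h5 := hj _ (hacc (i + M) j) _ (hacc i (n + m * j))
    (by rw [tot_ray S em hwb, hκ])
    (by
      rw [tot_ray S em hwb, hκ, ← hκi, hn, hm]
      ring)
  rw [← List.append_assoc, ← List.append_assoc] at h5
  have h6 := List.append_cancel_right h5
  have h7 := (strip_r_uniq w (hYw _) (hYw _) h6).2
  have h8 := congrArg List.length h7
  rw [hYl, hYl] at h8
  have h9 : 1 ≤ z.length := List.length_pos_iff.2 hz
  have h10 : 1 ≤ M * z.length := Nat.mul_pos hM h9
  rw [add_mul] at h8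
  omega

end Pool.Agent.Lib.UCU
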