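import Pool.Agent.Lib.UCU.Alg

/-!
# UCU / Str: stripping powers

PROOF IN WORDS. Existence: strong induction on the length (`w ≠ []`): if `x = w ++ x'` strip `x'` and add one, otherwise `j = 0`. Uniqueness: induction on `j` and `j'`: if both are positive cancel `w`; if one is zero and the other positive, the first list starts with `w`, excluded. The right-hand versions are the same with `rep w j ++ w = w ++ rep w j` (`rep_comm`).
-/

set_option autoImplicit false

namespace Pool.Agent.Lib.UCU

open Pool.Agent.Lib.UCX
open Pool.Agent.Lib.UCV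

theorem strip_l {α : Type} (w : List α) (hw : w ≠ []) (x : List α) :
    ∃ j x0, x = rep w j ++ x0 ∧ ¬ ∃ x', x0 = w ++ x' := by
  induction h : x.length using Nat.strong_induction_on generalizing x with
  | _ n ih =>
    by_cases hx : ∃ x', x = w ++ x'
    · obtain ⟨x', rfl⟩ := hx
      have hl : x'.length < n := by
        rw [← h, List.length_append]
        have := List.length_pos_iff.2 hw
        omega
      obtain ⟨j, x0, h1, h2⟩ := ih _ hl x' rfl
      exact ⟨j + 1, x0, by rw [rep_succ, List.append_assoc, ← h1], h2⟩
    · exact ⟨0, x, rfl, hx⟩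

theorem strip_l_uniq {α : Type} (w : List α) {j j' : ℕ} {x x' : List α} (hx : ¬ ∃ x0, x = w ++ x0)
    (hx' : ¬ ∃ x0, x' = w ++ x0) (h : rep w j ++ x = rep w j' ++ x') : j = j' ∧ x = x' := by
  induction j generalizing j' with
  | zero =>
    cases j' with
    | zero => exact ⟨rfl, h⟩
    | succ j' =>
      exfalso
      refine hx ⟨rep w j' ++ x', ?_⟩
      have h' : x = rep w (j' + 1) ++ x' := h
      rw [h', rep_succ, List.append_assoc]
  | succ j ih =>
    cases j' with
    | zero =>
      exfalso
      refine hx' ⟨rep w j ++ x, ?_⟩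
      have h' : rep w (j + 1) ++ x = x' := h
      rw [← h', rep_succ, List.append_assoc]
    | succ j' =>
      rw [rep_succ, rep_succ, List.append_assoc, List.append_assoc] at h
      obtain ⟨h1, h2⟩ := ih (List.append_cancel_left h)
      exact ⟨by rw [h1], h2⟩

theorem strip_r {α : Type} (w : List α) (hw : w ≠ []) (y : List α) :
    ∃ j y0, y = y0 ++ rep w j ∧ ¬ ∃ y', y0 = y' ++ w := by
  induction h : y.length using Nat.strong_induction_on generalizing y with
  | _ n ih =>
    by_cases hy : ∃ y', y = y' ++ w
    · obtain ⟨y', rfl⟩ := hy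
      have hl : y'.length < n := by
        rw [← h, List.length_append]
        have := List.length_pos_iff.2 hw
        omega
      obtain ⟨j, y0, h1, h2⟩ := ih _ hl y' rfl
      exact ⟨j + 1, y0, by rw [rep_succ, ← rep_comm, ← List.append_assoc, ← h1], h2⟩
    · exact ⟨0, y, (List.append_nil y).symm, hy⟩

theorem strip_r_uniq {α : Type} (w : List α) {j j' : ℕ} {y y' : List α} (hy : ¬ ∃ y0, y = y0 ++ w)
    (hy' : ¬ ∃ y0, y' = y0 ++ w) (h : y ++ rep w j = y' ++ rep w j') : j = j' ∧ y = y' := by
  induction j generalizing j' with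
  | zero =>
    have h0 : y = y' ++ rep w j' := by
      rw [← h]
      exact (List.append_nil y).symm
    cases j' with
    | zero => exact ⟨rfl, h0.trans (List.append_nil y')⟩
    | succ j' =>
      exfalso
      refine hy ⟨y' ++ rep w j', ?_⟩
      rw [h0, rep_succ, ← rep_comm, ← List.append_assoc]
  | succ j ih =>
    cases j' with
    | zero =>
      exfalso
      refine hy' ⟨y ++ rep w j, ?_⟩
      have h0 : y ++ rep w (j + 1) = y' := h.trans (List.append_nil y')
      rw [← h0, rep_succ, ← rep_comm, ← List.append_assoc]
    | succ j' =>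
      rw [rep_succ, rep_succ, ← rep_comm, ← rep_comm, ← List.append_assoc, ← List.append_assoc] at h
      obtain ⟨h1, h2⟩ := ih (List.append_cancel_right h)
      exact ⟨by rw [h1], h2⟩

end Pool.Agent.Lib.UCU
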